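import Pool.Agent.T2h16.BK.Stm
import Pool.Agent.T2h62.BK.Base

/-!
# Project BK: the product of the two characters is the cyclotomic character modulo eight
-/

set_option autoImplicit false
set_option linter.unusedVariables false

open scoped Classical

namespace Pool.Agent.T2h16.BK

open Pool.Agent.R384 Pool.Agent.T2h62.BK
open Pool.Agent.Y715.Red Pool.Agent.Y715.Nr Pool.Agent.W237.RK
open Pool.Agent.Y715.Gi (QB KK GK i₀_mem gk_fix)
open Pool.Agent.Y715.Df (Cmp exists_cmp)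

lemma sg_of_sq {x y z : QB} {i₀ : QB} (σ : GK i₀) (hx : x ^ 2 = z) (hz : σ z = z) :
    σ x = x ∨ σ x = -x := by
  have h : (σ x) ^ 2 = x ^ 2 := by rw [← map_pow, hx, hz]
  exact sq_eq_sq_iff_eq_or_eq_neg.1 h

lemma ne_neg {x : QB} (hx : x ≠ 0) : -x ≠ x := by
  intro h
  apply hx
  have h2 : (2 : QB) * x = 0 := by linear_combination -h
  exact (mul_eq_zero.1 h2).resolve_left two_ne_zero

/-- powers of `ζ` -/
lemma zeta_pow {ζ : QB} (h4 : ζ ^ 4 = -1) {k l : ℕ} (h : (k : ZMod (2 ^ 3)) = l) : ζ ^ k = ζ ^ l := by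
  have h8 : ζ ^ 8 = 1 := by
    have e : ζ ^ 8 = (ζ ^ 4) ^ 2 := by ring
    rw [e, h4]
    norm_num
  have h1 := (ZMod.natCast_eq_natCast_iff k l (2 ^ 3)).1 h
  have key : ∀ n : ℕ, ζ ^ n = ζ ^ (n % 8) := by
    intro n
    conv_lhs => rw [← Nat.div_add_mod n 8, pow_add, pow_mul, h8, one_pow, one_mul]
  rw [key k, key l]
  have h2 : k % 8 = l % 8 := h1
  rw [h2]

theorem t_CYC : S_CYC := by
  intro i₀ hi κ κ' D r I u u' hD kd k8 ζ h4 σ k hk
  have hi0 : σ i₀ = i₀ := gk_fix σ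
  have hr0 : r ≠ 0 := kd.ne hi hD
  have hI0 : I ≠ 0 := by
    intro h0
    have := kd.hI
    rw [h0] at this
    norm_num at this
  have hi00 : i₀ ≠ 0 := by
    intro h0
    rw [h0] at hi
    norm_num at hi
  have hi01 : i₀ - 1 ≠ 0 := by
    intro h0
    have : i₀ = 1 := sub_eq_zero.1 h0
    rw [this] at hi
    norm_num at hi
  have hu0 : u ≠ 0 := by
    intro h0
    have := k8.hu
    rw [h0, zero_pow two_ne_zero] at this
    exact hi00 (neg_eq_zero.1 this.symm)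
  have hu0' : u' ≠ 0 := by
    intro h0
    have := k8.hu'
    rw [h0, zero_pow two_ne_zero] at this
    exact hi01 this.symm
  obtain ⟨A, hA⟩ : ∃ A, A = m8 (κ σ : ℤ_[2]) := ⟨_, rfl⟩
  obtain ⟨B, hB⟩ : ∃ B, B = m8 (κ' σ : ℤ_[2]) := ⟨_, rfl⟩
  have hAu := m8_unit (κ σ)
  have hBu := m8_unit (κ' σ)
  rw [← hA] at hAu
  rw [← hB] at hBu
  have hkAB : (k : ZMod (2 ^ 3)) = A * B := by
    have h1 := (m8_sub _ _).1 hk
    rw [map_natCast, MonoidHom.mul_apply, Units.val_mul, map_mul, ← hA, ← hB] at h1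
    exact h1.symm
  -- modulo four
  have sr : σ r = r ∨ σ r = -r := rt_or hi kd.hr σ
  have sI : σ I = I ∨ σ I = -I := sg_of_sq (y := I) σ kd.hI (by rw [map_neg, map_one])
  have su : σ u = u ∨ σ u = -u := sg_of_sq (y := u) σ k8.hu (by rw [map_neg, hi0])
  have su' : σ u' = u' ∨ σ u' = -u' := sg_of_sq (y := u) σ k8.hu' (by rw [map_sub, map_one, hi0])
  have a1 : σ (I * r) = I * r → A = 1 ∨ A = 5 := fun h => by
    rw [hA]; exact (four_one _).1 (ph_one.1 (kd.one σ h))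
  have a2 : σ (I * r) = -(I * r) → A = 3 ∨ A = 7 := fun h => by
    rw [hA]; exact (four_neg _).1 (ph_neg.1 (kd.neg σ h))
  have b1 : σ r = r → B = 1 ∨ B = 5 := fun h => by
    rw [hB]; exact (four_one _).1 (ph_one.1 (kd.one' σ h))
  have b2 : σ r = -r → B = 3 ∨ B = 7 := fun h => by
    rw [hB]; exact (four_neg _).1 (ph_neg.1 (kd.neg' σ h))
  have c1 : σ u = u → A = 1 ∨ A = 7 := fun h => by
    rw [hA]; exact (pm_iff _).1 ((k8.pm σ).2 h)
  have c2 : σ u = -u → ¬ (A = 1 ∨ A = 7) := fun h h1 => by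
    rw [hA] at h1
    have := (k8.pm σ).1 ((pm_iff _).2 h1)
    rw [h] at this
    exact ne_neg hu0 this
  have d1 : σ u' = u' → B = 1 ∨ B = 7 := fun h => by
    rw [hB]; exact (pm_iff _).1 ((k8.pm' σ).2 h)
  have d2 : σ u' = -u' → ¬ (B = 1 ∨ B = 7) := fun h h1 => by
    rw [hB] at h1
    have := (k8.pm' σ).1 ((pm_iff _).2 h1)
    rw [h] at this
    exact ne_neg hu0' this
  have P4 : (σ I = I → (A * B = 1 ∨ A * B = 5)) ∧ (σ I = -I → (A * B = 3 ∨ A * B = 7)) := by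
    have f1 : ∀ A B : ZMod (2 ^ 3), (A = 1 ∨ A = 5) → (B = 1 ∨ B = 5) →
      (A * B = 1 ∨ A * B = 5) := by decide
    have f2 : ∀ A B : ZMod (2 ^ 3), (A = 3 ∨ A = 7) → (B = 3 ∨ B = 7) →
      (A * B = 1 ∨ A * B = 5) := by decide
    have f3 : ∀ A B : ZMod (2 ^ 3), (A = 1 ∨ A = 5) → (B = 3 ∨ B = 7) →
      (A * B = 3 ∨ A * B = 7) := by decide
    have f4 : ∀ A B : ZMod (2 ^ 3), (A = 3 ∨ A = 7) → (B = 1 ∨ B = 5) →
      (A * B = 3 ∨ A * B = 7) := by decide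
    constructor
    · intro h
      rcases sr with h1 | h1
      · exact f1 _ _ (a1 (by rw [map_mul, h, h1])) (b1 h1)
      · exact f2 _ _ (a2 (by rw [map_mul, h, h1, mul_neg])) (b2 h1)
    · intro h
      rcases sr with h1 | h1
      · exact f4 _ _ (a2 (by rw [map_mul, h, h1, neg_mul])) (b1 h1)
      · exact f3 _ _ (a1 (by rw [map_mul, h, h1, neg_mul_neg])) (b2 h1)
  have P8 : (σ (u * u') = u * u' → (A * B = 1 ∨ A * B = 7)) ∧
      (σ (u * u') = -(u * u') → (A * B = 3 ∨ A * B = 5)) := by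
    have f1 : ∀ A B : ZMod (2 ^ 3), (A = 1 ∨ A = 7) → (B = 1 ∨ B = 7) →
      (A * B = 1 ∨ A * B = 7) := by decide
    have f2 : ∀ A B : ZMod (2 ^ 3), (A = 1 ∨ A = 3 ∨ A = 5 ∨ A = 7) →
      (B = 1 ∨ B = 3 ∨ B = 5 ∨ B = 7) → ¬ (A = 1 ∨ A = 7) → ¬ (B = 1 ∨ B = 7) →
      (A * B = 1 ∨ A * B = 7) := by decide
    have f3 : ∀ A B : ZMod (2 ^ 3), (B = 1 ∨ B = 3 ∨ B = 5 ∨ B = 7) → (A = 1 ∨ A = 7) →
      ¬ (B = 1 ∨ B = 7) → (A * B = 3 ∨ A * B = 5) := by decide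
    have f4 : ∀ A B : ZMod (2 ^ 3), (A = 1 ∨ A = 3 ∨ A = 5 ∨ A = 7) →
      ¬ (A = 1 ∨ A = 7) → (B = 1 ∨ B = 7) → (A * B = 3 ∨ A * B = 5) := by decide
    have hne := ne_neg (mul_ne_zero hu0 hu0')
    constructor
    · intro h
      rcases su with h1 | h1 <;> rcases su' with h2 | h2
      · exact f1 _ _ (c1 h1) (d1 h2)
      · rw [map_mul, h1, h2, mul_neg] at h
        exact absurd h hne
      · rw [map_mul, h1, h2, neg_mul] at h
        exact absurd h hne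
      · exact f2 _ _ hAu hBu (c2 h1) (d2 h2)
    · intro h
      rcases su with h1 | h1 <;> rcases su' with h2 | h2
      · rw [map_mul, h1, h2] at h
        exact absurd h.symm hne
      · exact f3 _ _ hBu (c1 h1) (d2 h2)
      · exact f4 _ _ hAu (c2 h1) (d1 h2)
      · rw [map_mul, h1, h2, neg_mul_neg] at h
        exact absurd h.symm hne
  -- the roots of unity
  have hζ0 : ζ ≠ 0 := by
    rintro rfl
    norm_num at h4
  have hz2 : ζ ^ 2 = I ∨ ζ ^ 2 = -I := by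
    have : (ζ ^ 2) ^ 2 = I ^ 2 := by
      rw [kd.hI, ← h4]
      ring
    exact sq_eq_sq_iff_eq_or_eq_neg.1 this
  have hz3 : ζ - ζ ^ 3 = u * u' ∨ ζ - ζ ^ 3 = -(u * u') := by
    have : (ζ - ζ ^ 3) ^ 2 = (u * u') ^ 2 := by
      rw [mul_pow, k8.hu, k8.hu']
      linear_combination (-2 + ζ ^ 2) * h4 + hi
    exact sq_eq_sq_iff_eq_or_eq_neg.1 this
  have hI1 : σ (ζ ^ 2) = ζ ^ 2 → σ I = I := by
    intro h
    rcases hz2 with h1 | h1
    · rwa [h1] at h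
    · rw [h1, map_neg] at h
      exact neg_injective h
  have hI2 : σ (ζ ^ 2) = -ζ ^ 2 → σ I = -I := by
    intro h
    rcases hz2 with h1 | h1
    · rwa [h1] at h
    · rw [h1, map_neg, neg_neg] at h
      exact neg_eq_iff_eq_neg.1 h
  have hU1 : σ (ζ - ζ ^ 3) = ζ - ζ ^ 3 → σ (u * u') = u * u' := by
    intro h
    rcases hz3 with h1 | h1
    · rwa [h1] at h
    · rw [h1, map_neg] at h
      exact neg_injective h
  have hU2 : σ (ζ - ζ ^ 3) = -(ζ - ζ ^ 3) → σ (u * u') = -(u * u') := by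
    intro h
    rcases hz3 with h1 | h1
    · rwa [h1] at h
    · rw [h1, map_neg, neg_neg] at h
      exact neg_eq_iff_eq_neg.1 h
  have hroot : (σ ζ - ζ) * (σ ζ + ζ) * ((σ ζ - ζ ^ 3) * (σ ζ + ζ ^ 3)) = 0 := by
    have h5 : (σ ζ) ^ 4 = -1 := by rw [← map_pow, h4, map_neg, map_one]
    linear_combination h5 + ((σ ζ) ^ 2 * ζ ^ 2 * (-1) + ζ ^ 4 - 1) * h4
  have g1 : ∀ C : ZMod (2 ^ 3), (C = 1 ∨ C = 5) → (C = 1 ∨ C = 7) → C = ((1 : ℕ) : ZMod (2 ^ 3)) := by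
    decide
  have g3 : ∀ C : ZMod (2 ^ 3), (C = 3 ∨ C = 7) → (C = 3 ∨ C = 5) → C = ((3 : ℕ) : ZMod (2 ^ 3)) := by
    decide
  have g5 : ∀ C : ZMod (2 ^ 3), (C = 1 ∨ C = 5) → (C = 3 ∨ C = 5) → C = ((5 : ℕ) : ZMod (2 ^ 3)) := by
    decide
  have g7 : ∀ C : ZMod (2 ^ 3), (C = 3 ∨ C = 7) → (C = 1 ∨ C = 7) → C = ((7 : ℕ) : ZMod (2 ^ 3)) := by
    decide
  rcases mul_eq_zero.1 hroot with hr1 | hr1 <;> rcases mul_eq_zero.1 hr1 with h | h
  · have h' : σ ζ = ζ := sub_eq_zero.1 h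
    have e := g1 _ (P4.1 (hI1 (by rw [map_pow, h']))) (P8.1 (hU1 (by rw [map_sub, map_pow, h'])))
    rw [zeta_pow h4 (hkAB.trans e), pow_one, h']
  · have h' : σ ζ = -ζ := eq_neg_of_add_eq_zero_left h
    have e := g5 _ (P4.1 (hI1 (by rw [map_pow, h']; ring)))
      (P8.2 (hU2 (by rw [map_sub, map_pow, h']; ring)))
    rw [zeta_pow h4 (hkAB.trans e), h']
    linear_combination (-ζ) * h4
  · have h' : σ ζ = ζ ^ 3 := sub_eq_zero.1 h
    have e := g3 _ (P4.2 (hI2 (by rw [map_pow, h']; linear_combination ζ ^ 2 * h4)))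
      (P8.2 (hU2 (by rw [map_sub, map_pow, h']; linear_combination (-ζ ^ 5 + ζ) * h4)))
    rw [zeta_pow h4 (hkAB.trans e), h']
  · have h' : σ ζ = -ζ ^ 3 := eq_neg_of_add_eq_zero_left h
    have e := g7 _ (P4.2 (hI2 (by rw [map_pow, h']; linear_combination ζ ^ 2 * h4)))
      (P8.1 (hU1 (by rw [map_sub, map_pow, h']; linear_combination (ζ ^ 5 - ζ) * h4)))
    rw [zeta_pow h4 (hkAB.trans e), h']
    linear_combination (-ζ ^ 3) * h4

end Pool.Agent.T2h16.BK
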