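import Pool.Agent.T2h16.BK.Stm
import Pool.Agent.T2h16.KD.Pd

/-!
# Project BK: the isomorphism of the two copies of `ℤ[ω]`
-/

set_option autoImplicit false

namespace Pool.Agent.T2h16.BK

open Pool.Agent.R384
open Pool.Agent.Y698 (RR cX cY aR fR)
open Pool.Agent.T2h78.TW (PO)
open Pool.Agent.T2h16.KD (Cl)

/-- the inverse -/
noncomputable def ri : OO →+* RR := em Pool.Agent.Y698.aR_sq

lemma er_apply (x : RR) : er x = (cX x : OO) + (cY x : OO) * om := rfl

lemma er_aR : er aR = om := Pool.Agent.Y698.ev_aR _ _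

lemma ri_om : ri om = aR := by
  unfold ri
  rw [em_apply]
  simp [om]

lemma er_ri (z : OO) : er (ri z) = z := by
  unfold ri
  rw [em_apply, map_add, map_mul, map_intCast, map_intCast, er_aR]
  ext <;> simp [om]

lemma ri_er (x : RR) : ri (er x) = x := by
  rw [er_apply, map_add, map_mul, map_intCast, map_intCast, ri_om]
  exact (Pool.Agent.Y279.SG.dec x).symm

/-- the isomorphism -/
noncomputable def eE : RR ≃+* OO :=
  RingEquiv.ofRingHom er ri (by ext x <;> simp [er_ri]) (by ext x; simp [ri_er])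

lemma eE_apply (x : RR) : eE x = er x := rfl

lemma er_fR : er fR = s7 := by
  unfold Pool.Agent.Y698.fR
  rw [map_sub, map_mul, map_ofNat, map_one, er_aR]
  have e : (2 : OO) = ((2 : ℤ) : OO) := by norm_num
  rw [e]
  ext
  · rw [QuadraticAlgebra.re_sub, QuadraticAlgebra.re_mul, QuadraticAlgebra.re_intCast,
      QuadraticAlgebra.im_intCast, QuadraticAlgebra.re_one]
    simp [om, s7]
  · rw [QuadraticAlgebra.im_sub, QuadraticAlgebra.im_mul, QuadraticAlgebra.re_intCast,
      QuadraticAlgebra.im_intCast, QuadraticAlgebra.im_one]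
    simp [om, s7]

lemma er_inj : Function.Injective er := fun x y h => by
  rw [← ri_er x, h, ri_er]

lemma er_dvd {x y : RR} : er x ∣ er y ↔ x ∣ y := by
  constructor
  · intro h
    have := map_dvd ri h
    rwa [ri_er, ri_er] at this
  · exact fun h => map_dvd er h

lemma er_prime {x : RR} : Prime (er x) ↔ Prime x := MulEquiv.prime_iff (eE : RR ≃* OO)

lemma er_sqf {x : RR} (h : Squarefree x) : Squarefree (er x) := by
  intro y hy
  have h1 : ri y * ri y ∣ x := by
    rw [← er_dvd, map_mul, er_ri]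
    exact hy
  have h2 := (h _ h1).map er
  rwa [er_ri] at h2

section
variable {S : Finset RR} {t : RR}

/-- the properties of the product -/
lemma cl_sqf (h : Cl S) (hp : ∏ π ∈ S, π = 1 + 4 * t) : Squarefree (er (1 + 4 * t)) := by
  rw [← hp]
  exact er_sqf (Pool.Agent.T2h16.KD.PS_prod h.1).1.sqf

lemma cl_cop (h : Cl S) (hp : ∏ π ∈ S, π = 1 + 4 * t) : IsCoprime s7 (er (1 + 4 * t)) := by
  rw [← hp, ← er_fR]
  exact (IsCoprime.prod_right fun π hπ => (h.1 π hπ).cop).map er

lemma er_one (t : RR) : (4 : OO) ∣ er (1 + 4 * t) - 1 := by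
  refine ⟨er t, ?_⟩
  rw [map_add, map_mul, map_one, map_ofNat]
  ring

lemma er_two {π : OO} (hπ : Prime π) (h : π ∣ er (1 + 4 * t)) : ¬ π ∣ 2 := by
  intro h2
  have h4 : π ∣ 4 := by
    have : (4 : OO) = 2 * 2 := by norm_num
    rw [this]
    exact Dvd.dvd.mul_right h2 _
  have h1 := h4.trans (er_one t)
  have h3 : π ∣ 1 := by
    have e : (1 : OO) = er (1 + 4 * t) - (er (1 + 4 * t) - 1) := by ring
    rw [e]
    exact dvd_sub h h1
  exact hπ.not_isUnit (isUnit_of_dvd_one h3)

end

end Pool.Agent.T2h16.BK
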