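import Pool.Agent.T2h16.BK.Stm

/-!
# Hilbert 90 for open subgroups
-/

set_option autoImplicit false

open scoped Classical

namespace Pool.Agent.T2h16.BK

section

variable {K Ω : Type*} [Field K] [Field Ω] [Algebra K Ω]

/-- Hilbert 90 for open subgroups. -/
theorem h90 (H : Subgroup (Ω ≃ₐ[K] Ω)) (hH : IsOpen (H : Set (Ω ≃ₐ[K] Ω)))
    (f : (Ω ≃ₐ[K] Ω) → Ω) (hf : IsLocallyConstant f) (hf0 : ∀ σ, f σ ≠ 0)
    (hc : ∀ σ ∈ H, ∀ τ ∈ H, f (σ * τ) = f σ * σ (f τ)) :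
    ∃ y : Ω, y ≠ 0 ∧ ∀ σ ∈ H, σ y = f σ * y := by
  have h1 : f 1 = 1 := by
    have h := hc 1 H.one_mem 1 H.one_mem
    rw [mul_one, AlgEquiv.one_apply] at h
    exact mul_left_cancel₀ (hf0 1) (h.symm.trans (mul_one _).symm)
  have hU : ((H : Set (Ω ≃ₐ[K] Ω)) ∩ {σ | f σ = f 1}) ∈ nhds (1 : Ω ≃ₐ[K] Ω) :=
    Filter.inter_mem (hH.mem_nhds H.one_mem) ((hf.isOpen_fiber (f 1)).mem_nhds rfl)
  rw [krullTopology_mem_nhds_one_iff] at hU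
  obtain ⟨L, hL, hLU⟩ := hU
  -- the coefficients
  let c : (L →ₐ[K] Ω) → Ω := fun φ =>
    if h : ∃ τ ∈ H, ∀ z : L, τ z = φ z then f h.choose else 0
  have hcf : ∀ τ ∈ H, c ((τ : Ω →ₐ[K] Ω).comp L.val) = f τ := by
    intro τ hτ
    have h : ∃ τ' ∈ H, ∀ z : L, τ' z = ((τ : Ω →ₐ[K] Ω).comp L.val) z := ⟨τ, hτ, fun z => rfl⟩
    have h2 : c ((τ : Ω →ₐ[K] Ω).comp L.val) = f h.choose := dif_pos h
    obtain ⟨h3, h4⟩ := h.choose_spec
    have h5 : τ⁻¹ * h.choose ∈ L.fixingSubgroup := by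
      rw [IntermediateField.mem_fixingSubgroup_iff]
      intro z hz
      have h6 : h.choose z = τ z := h4 ⟨z, hz⟩
      rw [AlgEquiv.mul_apply, h6, ← AlgEquiv.mul_apply, inv_mul_cancel, AlgEquiv.one_apply]
    have h6 := hLU h5
    have h7 : f (τ⁻¹ * h.choose) = 1 := h6.2.trans h1
    have h8 := hc τ hτ _ h6.1
    rw [h7, map_one, mul_one, mul_inv_cancel_left] at h8
    rw [h2, h8]
  have hcσ : ∀ σ ∈ H, ∀ φ : L →ₐ[K] Ω, c ((σ : Ω →ₐ[K] Ω).comp φ) = f σ * σ (c φ) := by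
    intro σ hσ φ
    by_cases h : ∃ τ ∈ H, ∀ z : L, τ z = φ z
    · obtain ⟨τ, hτ, hφ⟩ := h
      have e1 : φ = (τ : Ω →ₐ[K] Ω).comp L.val := AlgHom.ext fun z => (hφ z).symm
      have e2 : (σ : Ω →ₐ[K] Ω).comp φ = ((σ * τ : Ω ≃ₐ[K] Ω) : Ω →ₐ[K] Ω).comp L.val := by
        rw [e1]; rfl
      rw [e2, hcf _ (H.mul_mem hσ hτ), hc σ hσ τ hτ, e1, hcf τ hτ]
    · have h2 : c φ = 0 := dif_neg h
      have h3 : c ((σ : Ω →ₐ[K] Ω).comp φ) = 0 := by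
        refine dif_neg fun h' => h ?_
        obtain ⟨τ, hτ, hφ⟩ := h'
        refine ⟨σ⁻¹ * τ, H.mul_mem (H.inv_mem hσ) hτ, fun z => ?_⟩
        have h4 : τ z = σ (φ z) := hφ z
        rw [AlgEquiv.mul_apply, h4, ← AlgEquiv.mul_apply, inv_mul_cancel, AlgEquiv.one_apply]
      rw [h2, h3, map_zero, mul_zero]
  -- the series
  have hli := linearIndependent_toLinearMap K L Ω
  rw [Fintype.linearIndependent_iff] at hli
  have hne : ∃ z : L, ∑ φ, c φ * φ z ≠ 0 := by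
    by_contra hcon
    push Not at hcon
    have h2 := hli c (LinearMap.ext fun z => by
      rw [LinearMap.sum_apply]
      exact hcon z) (((1 : Ω ≃ₐ[K] Ω) : Ω →ₐ[K] Ω).comp L.val)
    rw [hcf 1 H.one_mem] at h2
    exact hf0 1 h2
  obtain ⟨z, hz⟩ := hne
  have hσ : ∀ σ ∈ H, f σ * σ (∑ φ, c φ * φ z) = ∑ φ, c φ * φ z := by
    intro σ hσ
    rw [map_sum, Finset.mul_sum]
    refine Fintype.sum_bijective (fun φ : L →ₐ[K] Ω => (σ : Ω →ₐ[K] Ω).comp φ) ?_ _ _ fun φ => ?_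
    · constructor
      · intro φ ψ h
        refine AlgHom.ext fun x => σ.injective ?_
        exact congrArg (fun g : L →ₐ[K] Ω => g x) h
      · intro φ
        refine ⟨((σ⁻¹ : Ω ≃ₐ[K] Ω) : Ω →ₐ[K] Ω).comp φ, AlgHom.ext fun x => ?_⟩
        change σ (σ⁻¹ (φ x)) = φ x
        rw [← AlgEquiv.mul_apply, mul_inv_cancel, AlgEquiv.one_apply]
    · change _ = c ((σ : Ω →ₐ[K] Ω).comp φ) * σ (φ z)
      rw [hcσ σ hσ, map_mul, mul_assoc]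
  refine ⟨(∑ φ, c φ * φ z)⁻¹, inv_ne_zero hz, fun σ hσH => ?_⟩
  have h2 := hσ σ hσH
  have h3 : σ (∑ φ, c φ * φ z) ≠ 0 := fun h => hz (σ.injective (h.trans (map_zero σ).symm))
  rw [map_inv₀]
  refine inv_eq_of_mul_eq_one_right ?_
  rw [mul_left_comm, ← mul_assoc, h2, mul_inv_cancel₀ hz]

end

theorem t_H90 : S_H90 := fun _ H hH f hf hf0 hc => h90 H hH f hf hf0 hc

end Pool.Agent.T2h16.BK
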