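import Pool.Agent.T2h16.BK.Stm

/-!
# The characters modulo eight
-/

set_option autoImplicit false

open scoped Classical

namespace Pool.Agent.T2h16.BK

open WeierstrassCurve Pool.Agent.Y676.IS
open Pool.Agent.R384
open Pool.Agent.Y715.Red Pool.Agent.Y715.Nr Pool.Agent.W237.RK
open Pool.Agent.Y715.Gi (QB KK GK i₀_mem gk_fix)

lemma pm_iff (hM : S_M8) {i₀ w m : QB} (h : WD w m) (fx : ∀ σ : GK i₀, Fx w m (rh σ))
    {x : ℕ → (Cu (ca w m) (cb w m)).Point} (hx : Tow (eF h) (tA h) x) {κ : GK i₀ →* ℤ_[2]ˣ}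
    (hκ : ∀ σ, ActsBy x (act h fx σ) (κ σ)) {u : QB} (hu : u ^ 2 = w - 1) (σ : GK i₀) :
    Pm (κ σ) ↔ σ u = u := by
  have e8 : (2 : ℤ_[2]) ^ 3 = 8 := by norm_num
  obtain ⟨m1, m2⟩ := hM w m h x hx u hu (rh σ) (fx σ)
  have hσu : σ u = u ∨ σ u = -u := by
    apply sq_eq_sq_iff_eq_or_eq_neg.1
    have h1 : σ w = w := (fx σ).w
    rw [← map_pow, hu, map_sub, map_one, h1]
  have hact : act h fx σ (x 3) = galH h (rh σ) (fx σ) (x 3) := rfl
  constructor
  · intro hp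
    have h1 : galH h (rh σ) (fx σ) (x 3) = x 3 ∨ galH h (rh σ) (fx σ) (x 3) = -x 3 := by
      rcases hp with hp | hp
      · left
        have h2 := hκ σ 3 1 (by rw [e8, Int.cast_one]; exact hp)
        rw [one_smul] at h2
        exact h2
      · right
        have h2 := hκ σ 3 (-1) (by rw [e8, Int.cast_neg, Int.cast_one, sub_neg_eq_add]; exact hp)
        rw [neg_smul, one_smul] at h2
        exact h2
    rcases hσu with h2 | h2
    · exact h2
    · exfalso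
      obtain ⟨n1, n2⟩ := m2 h2
      rcases h1 with h1 | h1
      · exact n1 h1
      · exact n2 h1
  · intro hs
    obtain ⟨k, hk⟩ := exists_int (κ σ : ℤ_[2]) 3
    have h2 := hκ σ 3 k hk
    have key : ∀ e : ℤ, act h fx σ (x 3) = e • x 3 → (8 : ℤ_[2]) ∣ (κ σ : ℤ_[2]) - e := by
      intro e he
      rw [h2] at he
      have h3 : (k - e) • x 3 = 0 := by rw [sub_smul, he, sub_self]
      have h4 := dvd_cast.2 (Tow.dvd (td h) hx h3)
      rw [e8] at h4 hk
      have e5 : (κ σ : ℤ_[2]) - e = ((κ σ : ℤ_[2]) - k) + ((k - e : ℤ) : ℤ_[2]) := by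
        push_cast
        ring
      rw [e5]
      exact dvd_add hk h4
    rcases m1 hs with h3 | h3
    · left
      have h4 := key 1 (by rw [one_smul]; exact h3)
      rwa [Int.cast_one] at h4
    · right
      have h4 := key (-1) (by rw [neg_smul, one_smul]; exact h3)
      rwa [Int.cast_neg, Int.cast_one, sub_neg_eq_add] at h4

theorem t_KD8 : S_KD8 := by
  intro hM i₀ hi D hD h r I hr hI fx
  obtain ⟨x, hx⟩ := (td h).exists_tow
  obtain ⟨z, hz⟩ := (td h.bar).exists_tow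
  obtain ⟨κ', a1, a2, a3, a4, a5⟩ := exists_kap h fx hx hr
  have hr' : (I * r) ^ 2 = -em hi D := by rw [mul_pow, hI, hr]; ring
  have fxb : ∀ σ : GK i₀, Fx (1 - i₀) (-em hi D) (rh σ) := fun σ => (fx σ).bar
  obtain ⟨κ, b1, b2, b3, b4, b5⟩ := exists_kap h.bar fxb hz hr'
  let S : (Cu (ca (1 - i₀) (-em hi D)) (cb (1 - i₀) (-em hi D))).Point →+
      (Cu (ca i₀ (em hi D)) (cb i₀ (em hi D))).Point :=
    { toFun := shF h.sh, map_zero' := rfl, map_add' := shF_add h.sh }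
  have hS : ∀ P, S P = shF h.sh P := fun P => rfl
  obtain ⟨u, hu⟩ := IsAlgClosed.exists_pow_nat_eq (-i₀) two_pos
  obtain ⟨u', hu'⟩ := IsAlgClosed.exists_pow_nat_eq (i₀ - 1) two_pos
  refine ⟨κ, κ', x, fun n => S (z n), u, u', ⟨hr, hI, b1, a1, fun σ h => ph_one.2 (b3 σ h),
    fun σ h => ph_neg.2 (b4 σ h), fun σ h => ph_one.2 (a3 σ h), fun σ h => ph_neg.2 (a4 σ h), ?_,
    a5⟩, ⟨hu, hu', fun σ => pm_iff hM h.bar fxb hz b2 (by rw [hu]; ring) σ,
    fun σ => pm_iff hM h fx hx a2 hu' σ⟩, hx, ?_, a2, ?_⟩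
  · intro p _ ι τ σ hc hin hw
    refine b5 p ι τ σ hc hin ?_
    rwa [sub_sub_cancel]
  · exact tow_S h hz
  · intro σ n k hk
    have h1 := b2 σ n k hk
    show act h fx σ (S (z n)) = k • S (z n)
    rw [← map_zsmul, ← h1]
    exact gal_shF h (fx σ) (z n)

end Pool.Agent.T2h16.BK
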