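import Pool.Agent.T2h16.BK.Er

/-!
# Project BK, task LOCQ: the local condition at a prime divisor of `m`

After `Pool/Agent/R384/Main.lean`.
-/

set_option autoImplicit false

open scoped Classical

namespace Pool.Agent.T2h16.BK

open Pool.Agent.R384
open Pool.Agent.Y715.Red Pool.Agent.Y715.Nr Pool.Agent.W237.RK
open Pool.Agent.Y715.Gi (QB KK GK i₀_mem gk_fix)

theorem t_LOCQ : S_LOCQ := by
  intro i₀ hi χ m r cd c hc hc1 q m1 hq hq2 hq7 hm hq1 p _ ι hι hD δ s hδ hs hk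
  have hp2 : p ≠ 2 := fun h => hq2 ((two_of_dvd hq (iw hi ι) hι).1 h)
  have hp7 : p ≠ 7 := by
    rintro rfl
    have e7 : ((7 : ℕ) : OO) = -(s7 * s7) := by
      unfold s7
      ext
      · rw [QuadraticAlgebra.re_natCast]; simp
      · rw [QuadraticAlgebra.im_natCast]; simp
    have h1 := (dvd_iff (iw hi ι) hq hι ((7 : ℕ) : OO)).2 (p_lt (iw hi ι))
    rw [e7, dvd_neg] at h1
    exact hq7 ((hq.dvd_or_dvd h1).elim id id)
  obtain ⟨σ₀, h0, h2⟩ := exists_ram hi cd hq hm hq1 hι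
  have hχ : vl χ σ₀ = -1 := by
    obtain ⟨τ, hτ, hin⟩ := h0
    unfold vl
    rw [(cd.inert p ι τ σ₀ hp2 hτ hin).2 h2]
    simp
  have hD' : CobOn χ (DD ι) c := dec_of_inert hc hD h0 hχ fun τ hτ => conj_mem h0 hτ
  have hsq : (ι s) ^ 2 = em (iw hi ι) δ := by rw [← map_pow, hs, ι_em]
  rcases loc_dich hi cd hc1 hD' (II_sub h0) h2 hs hk with h | h
  · left
    refine ⟨not_dvd_of_fix (iw hi ι) hq hι hδ hsq fun τ _ hτ => fix_D h τ hτ, ?_⟩
    exact resid (iw hi ι) hp2 hp7 hq hι hsq (fix_D h)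
  · right
    have hsr : (s * r) ^ 2 = em hi (δ * m) := by rw [mul_pow, hs, cd.hr, map_mul]
    have hdv : q ∣ δ := by
      by_contra hcon
      refine no_simple (iw hi ι) hq hι (t := δ * m1) (s := ι (s * r))
        (fun h => (hq.dvd_or_dvd h).elim hcon hq1) ?_ fun τ _ hτ => fix_D h τ hτ
      rw [← map_pow, hsr, ι_em, hm]
      congr 1
      ring
    obtain ⟨δ1, hδ1⟩ := hdv
    refine ⟨δ1, m1, hδ1, hm, ?_⟩
    have hq0 : em (iw hi ι) q ≠ 0 := em_ne _ hq.ne_zero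
    refine resid (iw hi ι) hp2 hp7 hq hι (y := ι (s * r) / em (iw hi ι) q) ?_ ?_
    · rw [div_pow, ← map_pow, hsr, ι_em, hδ1, hm, div_eq_iff (pow_ne_zero _ hq0), ← map_pow,
        ← map_mul]
      congr 1
      ring
    · intro τ hτ
      rw [map_div₀, fix_D h τ hτ, em_fix (iw hi ι) hτ]

end Pool.Agent.T2h16.BK
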