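import Pool.Agent.T2h16.BK.Stm

/-!
# The points of order eight
-/

set_option autoImplicit false

open scoped Classical

namespace Pool.Agent.T2h16.BK

open WeierstrassCurve Pool.Agent.Y676.IS
open Pool.Agent.R384
open Pool.Agent.Y715.Gi (QB KK GK i₀_mem gk_fix)

section

variable {w m : QB} (h : WD w m) {x : ℕ → (Cu (ca w m) (cb w m)).Point}

lemma three (hx : Tow (eF h) (tA h) x) : eF h (eF h (x 3)) = tA h := by
  have h1 : eF h (eF h (eF h (x 3))) = 0 := hx.ker 3
  rcases ((td h).kf _).1 h1 with h2 | h2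
  · exfalso
    have h3 : (4 : ℤ) • x 3 = 0 := by
      have h4 : eG h (eF h (eG h (eF h (x 3)))) = (4 : ℤ) • x 3 := by
        rw [(td h).gf (eG h (eF h (x 3))), (td h).gf (x 3)]
        abel
      rw [← h4, (td h).comm (eF h (x 3)), h2, map_zero, map_zero]
    have h5 := Tow.dvd (td h) hx h3
    norm_num at h5
  · exact h2

/-- the coordinates of the points of order eight -/
lemma eight (hx : Tow (eF h) (tA h) x) {u : QB} (hu : u ^ 2 = w - 1) :
    ∃ (a b : QB) (hab : (Cu (ca w m) (cb w m)).Nonsingular a b), x 3 = .some a b hab ∧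
      (a = w * m + w * m * (1 - w) * u ∨ a = w * m - w * m * (1 - w) * u) := by
  obtain ⟨X, Y, hXY, hP, hX, hY, h1, h2⟩ := four h (three h hx)
  have hw1 := h.w1
  have hw0 := h.w0
  have hm := h.hm
  have hE := ns_eq hXY
  have hXw : X = w ^ 2 * m := by
    have hX1 : X = w ^ 2 * m ∨ X = -(w ^ 2 * m) := by
      apply sq_eq_sq_iff_eq_or_eq_neg.1
      rw [h1]; ring
    rcases hX1 with h3 | h3
    · exact h3
    · exfalso
      rw [h2, h3] at hE
      unfold ca cb at hE
      have h4 : w ^ 4 * m ^ 3 * (8 - 4 * w) = 0 := by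
        linear_combination -hE + 3 * w ^ 4 * m ^ 3 * h.hw
      have h5 : (8 : QB) - 4 * w ≠ 0 := by
        intro h5
        have h6 : w = 2 := by linear_combination -h5 / 4
        have h7 := h.hw
        rw [h6] at h7
        norm_num at h7
      exact (mul_ne_zero (mul_ne_zero (pow_ne_zero _ hw0) (pow_ne_zero _ hm)) h5) h4
  rcases hx3 : x 3 with _ | ⟨a, b, hab⟩
  · rw [hx3] at hP
    exact absurd hP (by rintro ⟨⟩)
  have ha : a ≠ 0 := by
    intro ha
    rw [hx3, isT_of_x0 h.dat.hb h.dat.hd hab ha] at hP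
    have h3 : eF h (tA h) = 0 := (td h).fT
    rw [show (TT h.dat.hb h.dat.hd) = tA h from rfl, h3] at hP
    exact absurd hP (by rintro ⟨⟩)
  obtain ⟨hn, he⟩ := eF_some h hab ha
  rw [hx3, he] at hP
  obtain ⟨e1, -⟩ := (Affine.Point.some.injEq _ _ _ _ _ _).mp hP
  refine ⟨a, b, hab, rfl, ?_⟩
  have hb2 : b ^ 2 = (w ^ 2 * m + m) * (1 - w) ^ 2 * a ^ 2 := by
    rw [hXw] at e1
    field_simp at e1
    linear_combination e1
  have hab2 := ns_eq hab
  rw [hb2] at hab2
  unfold ca cb at hab2
  have h3 : a * ((a - w * m) ^ 2 - (w * m * (1 - w) * u) ^ 2) = 0 := by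
    have e : (w * m * (1 - w) * u) ^ 2 = (w * m * (1 - w)) ^ 2 * (w - 1) := by
      rw [mul_pow, hu]
    rw [e]
    linear_combination -hab2 +
      (a ^ 2 * m * (w ^ 2 - w - 1) - a * m ^ 2 * w ^ 2 * (w - 1)) * h.hw
  rcases mul_eq_zero.1 h3 with h4 | h4
  · exact absurd h4 ha
  · rcases sq_eq_sq_iff_eq_or_eq_neg.1 (sub_eq_zero.1 h4) with h5 | h5
    · left; linear_combination h5
    · right; linear_combination h5

end

theorem t_M8 : S_M8 := by
  intro w m h x hx u hu g hg
  obtain ⟨a, b, hab, h1, h2⟩ := eight h hx hu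
  have hw1 := h.w1
  have hw0 := h.w0
  have hm := h.hm
  have hu0 : u ≠ 0 := by
    rintro rfl
    apply hw1
    linear_combination hu
  have hgw : g w = w := hg.w
  have hgm : g m = m := hg.m
  have h3 : galH h g hg (x 3) = gal h g hg (x 3) := rfl
  rw [h3, h1, gal_some, neg_some hab (ns_neg h.dat.hb h.dat.hd hab)]
  constructor
  · intro hgu
    have hga : g a = a := by
      rcases h2 with rfl | rfl
      · simp only [map_add, map_sub, map_mul, map_one, hgw, hgm, hgu]
      · simp only [map_sub, map_mul, map_one, hgw, hgm, hgu]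
    have hgb : g b = b ∨ g b = -b := by
      apply sq_eq_sq_iff_eq_or_eq_neg.1
      have h4 := ns_eq hab
      have h5 := congrArg g h4
      rw [map_pow, map_add, map_add, map_mul, map_mul, map_pow, map_pow, hg.ca, hg.cb, hga] at h5
      rw [h5, h4]
    rcases hgb with h4 | h4
    · left; exact some_congr _ _ hga h4
    · right; exact some_congr _ _ hga h4
  · intro hgu
    have hga : g a ≠ a := by
      have h5 : (2 : QB) * (w * m * (1 - w) * u) ≠ 0 :=
        mul_ne_zero two_ne_zero (mul_ne_zero (mul_ne_zero (mul_ne_zero hw0 hm) hw1) hu0)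
      intro h4
      apply h5
      rcases h2 with rfl | rfl
      · simp only [map_add, map_sub, map_mul, map_one, hgw, hgm, hgu] at h4
        linear_combination -h4
      · simp only [map_sub, map_mul, map_one, hgw, hgm, hgu] at h4
        linear_combination h4
    constructor
    · intro h4
      exact hga ((Affine.Point.some.injEq _ _ _ _ _ _).mp h4).1
    · intro h4
      exact hga ((Affine.Point.some.injEq _ _ _ _ _ _).mp h4).1

end Pool.Agent.T2h16.BK
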