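import Pool.Agent.T2h16.BK.Er

/-!
# Project BK, task MQ8: the vanishing over the multiquadratic fields

After `Pool/Agent/R384/X/Mq7.lean`.
-/

set_option autoImplicit false

open scoped Classical

namespace Pool.Agent.T2h16.BK

open Pool.Agent.R384
open Pool.Agent.Y715.Red Pool.Agent.Y715.Nr Pool.Agent.W237.RK
open Pool.Agent.Y715.Gi (QB KK GK i₀_mem gk_fix)
open Pool.Agent.Y698 (RR)
open Pool.Agent.T2h16.KD (Cl)

lemma Pm.neg_iff {z : ℤ_[2]} : Pm (-z) ↔ Pm z := by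
  unfold Pm
  constructor
  · rintro (h | h)
    · right
      have := (dvd_neg (a := (8 : ℤ_[2]))).2 h
      convert this using 1
      ring
    · left
      have := (dvd_neg (a := (8 : ℤ_[2]))).2 h
      convert this using 1
      ring
  · rintro (h | h)
    · right
      have := (dvd_neg (a := (8 : ℤ_[2]))).2 h
      convert this using 1
      ring
    · left
      have := (dvd_neg (a := (8 : ℤ_[2]))).2 h
      convert this using 1
      ring

variable {i₀ : QB} {κ κ' : GK i₀ →* ℤ_[2]ˣ} {u u' : QB}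

/-- twists by characters with values `± 1` -/
lemma K8.twist (k8 : K8 κ κ' u u') (ε : GK i₀ →* ℤ_[2]ˣ) (hε : ∀ σ, ε σ = 1 ∨ ε σ = -1) :
    K8 (κ * ε) (κ' * ε) u u' := by
  have key : ∀ (κ : GK i₀ →* ℤ_[2]ˣ) (σ : GK i₀), Pm ((κ * ε) σ : ℤ_[2]ˣ) ↔ Pm (κ σ : ℤ_[2]ˣ) := by
    intro κ σ
    rw [MonoidHom.mul_apply]
    rcases hε σ with h | h
    · rw [h, mul_one]
    · rw [h, mul_neg, mul_one, Units.val_neg, Pm.neg_iff]
  exact ⟨k8.hu, k8.hu', fun σ => (key κ σ).trans (k8.pm σ), fun σ => (key κ' σ).trans (k8.pm' σ)⟩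

theorem t_MQ8 : S_MQ8T := by
  intro hVAN i₀ hi κ κ' D r I u u' n s E hE kd k8 hD hE0 hgood j ϖ ϖ' hpl
  have hs0 : ∀ i, s i ≠ 0 := by
    intro i h
    have h1 := hE i
    rw [h, zero_pow two_ne_zero] at h1
    exact hE0 i (em_inj hi h1.symm)
  have hs : ∀ (i) (σ : GK i₀), σ (s i) = s i ∨ σ (s i) = -s i := fun i σ => rt_or hi (hE i) σ
  refine van_all hi hs0 hs ϖ Finset.univ _ fun T _ => ?_
  obtain ⟨S, t, z, hCl, hP, hG, hz, hprod⟩ := hgood T
  have kd1 := KD.twists hi hs0 hs hE kd hD hE0 T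
  have hz0 : em hi z ≠ 0 := em_ne hi hz
  have kd2 := KD.resc hi kd1 (D' := -(s7 * er (1 + 4 * t))) (u := (em hi z)⁻¹) (inv_ne_zero hz0)
    (fun σ => by rw [map_inv₀, gk_em]) (by
      rw [mul_pow, kd1.hr, hprod, map_mul, map_pow]
      field_simp)
  set ε := ∏ i ∈ T, sgc (es (hs0 i) (hs i)) with hε
  have hεv : ∀ σ, ε σ = 1 ∨ ε σ = -1 := by
    intro σ
    have h1 : ∀ i, sgc (es (hs0 i) (hs i)) σ = 1 ∨ sgc (es (hs0 i) (hs i)) σ = -1 := by
      intro i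
      rcases Int.units_eq_one_or (es (hs0 i) (hs i) σ) with h | h
      · exact Or.inl (sgc_one h)
      · exact Or.inr (sgc_neg h)
    rw [hε, MonoidHom.finsetProd_apply]
    refine Finset.prod_induction _ (fun x : ℤ_[2]ˣ => x = 1 ∨ x = -1) ?_ (Or.inl rfl)
      fun i _ => h1 i
    rintro a b (rfl | rfl) (rfl | rfl) <;> simp
  have k82 := k8.twist ε hεv
  have e : κ ^ j * κ' ^ (1 - j) * ε = (κ * ε) ^ j * (κ' * ε) ^ (1 - j) := by
    refine MonoidHom.ext fun σ => ?_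
    have key : ∀ a b c : ℤ_[2]ˣ, a ^ j * b ^ (1 - j) * c = (a * c) ^ j * (b * c) ^ (1 - j) :=
      fun a b c => by
        rw [mul_zpow, mul_zpow, mul_mul_mul_comm, ← zpow_add, add_sub_cancel, zpow_one]
    exact key _ _ _
  intro c hc hodd hstr
  rw [e] at hc hodd hstr ⊢
  obtain ⟨y, hy⟩ := hVAN i₀ hi (κ * ε) (κ' * ε) _ _ I u u' S t kd2 k82 hCl hP hG rfl j ϖ ϖ' hpl
    c ⟨by
      have := hc.cont
      rwa [Subgroup.coe_top, continuousOn_univ] at this, fun σ τ => hc.mul σ trivial τ trivial⟩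
    (fun p _ ι hp => by
      obtain ⟨y, hy⟩ := hodd p ι hp
      exact ⟨y, fun σ hσ => hy σ hσ trivial⟩)
    (fun ι hι => by
      obtain ⟨y, hy⟩ := hstr ι hι
      exact ⟨y, fun σ hσ => hy σ hσ trivial⟩)
  exact ⟨y, fun σ _ => hy σ⟩

end Pool.Agent.T2h16.BK
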