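import Pool.Agent.T2h16.BK.CYC

/-!
# Project BK: the characters at the places above two
-/

set_option autoImplicit false
set_option linter.unusedVariables false

open scoped Classical

namespace Pool.Agent.T2h16.BK

open Pool.Agent.R384 Pool.Agent.T2h62.BK
open Pool.Agent.Y715.Red Pool.Agent.Y715.Nr Pool.Agent.W237.RK
open Pool.Agent.Y715.Gi (QB KK GK i₀_mem gk_fix)
open Pool.Agent.Y715.Df (Cmp exists_cmp)

variable {i₀ : QB} (hi : i₀ ^ 2 = i₀ - 2)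

lemma s7_eq : (s7 : OO) = 2 * om - 1 := by
  have h1 : (1 : OO) = ⟨1, 0⟩ := rfl
  rw [two_mul, h1]
  ext
  · simp [s7, om]
  · simp [s7, om]

lemma em_om2 {L : Type} [CommRing L] {w : L} (hw : w ^ 2 = w - 2) : em hw om = w := by
  rw [em_apply]
  simp [om]

lemma ntwo : ‖(2 : PadicAlgCl 2)‖ = 1 / 2 := by
  have := Pool.Agent.Y715.Gi.norm_two'
  rw [this]
  try norm_num

/-- the size of the discriminant -/
lemma size_disc {v t : PadicAlgCl 2} (hv : v * (1 - v) = 2) (h : ‖v‖ < 1) (ht : ‖t‖ ≤ 1) :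
    ‖(1 - 2 * v) * (1 + 4 * t) - 1‖ ≤ 1 / 4 := by
  have h1 := half_norm hv h
  have h2 := ntwo
  have h4 := norm_four'
  have e : (1 - 2 * v) * (1 + 4 * t) - 1 = -(2 * v) + 4 * (t * (1 - 2 * v)) := by ring
  rw [e]
  refine add_le ?_ ?_
  · rw [norm_neg, norm_mul, h2, h1]
    norm_num
  · rw [norm_mul, h4]
    have h5 : ‖t * (1 - 2 * v)‖ ≤ 1 := by
      refine mul_le ht ?_
      refine sub_le (by rw [norm_one]) ?_
      rw [norm_mul, h2, h1]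
      norm_num
    linarith

lemma one_sub_norm {v : PadicAlgCl 2} (h : ‖v‖ < 1) : ‖1 - v‖ = 1 := by
  rw [sub_eq_add_neg, eq_of_lt, norm_one]
  rw [norm_one, norm_neg]
  exact h

section

variable {κ κ' : GK i₀ →* ℤ_[2]ˣ} {D P : OO} {r I u u' : QB}

include hi in
/-- a root that is not fixed by the decomposition group -/
lemma exists_move {ι : QB →ₐ[ℚ] PadicAlgCl 2} {s : QB} (h1 : ‖(ι s) ^ 2 - 1‖ = 1 / 4) :
    ∃ φ ∈ (DD ι : Set (GK i₀)), φ s ≠ s := by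
  by_contra hcon
  push Not at hcon
  have hfix : ∀ τ : Au 2, τ (ι s) = ι s := fun τ => fix_D hcon τ (two_fix (iw hi ι) τ)
  have h2 : ‖ι s‖ = 1 := by
    have h3 : ‖(ι s) ^ 2‖ = 1 := by
      have e : (ι s) ^ 2 = 1 + ((ι s) ^ 2 - 1) := by ring
      rw [e, eq_of_lt, norm_one]
      rw [norm_one, h1]
      norm_num
    rw [norm_pow] at h3
    exact (pow_eq_one_iff_of_nonneg (norm_nonneg _) two_ne_zero).1 h3
  have h3 := sq_mod_eight h2 hfix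
  rw [h1] at h3
  norm_num at h3

/-- the place where `ω` is not a unit -/
lemma at_om (kd : KD hi κ κ' D r I) (k8 : K8 κ κ' u u') (hD : D = -(s7 * P))
    (h4 : (4 : OO) ∣ P - 1) {ι : QB →ₐ[ℚ] PadicAlgCl 2} (h : ‖ι i₀‖ < 1) :
    (∀ σ ∈ (II ι : Set (GK i₀)), κ' σ = 1) ∧ ∃ φ ∈ (DD ι : Set (GK i₀)), ¬ Pm (κ' φ) := by
  have hw := iw hi ι
  obtain ⟨t, ht⟩ := h4
  have hem : em (iw hi ι) D = (1 - 2 * ι i₀) * (1 + 4 * em (iw hi ι) t) := by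
    have e1 : D = (1 - 2 * om) * (1 + 4 * t) := by
      have e2 := s7_eq
      have e3 : P = 1 + 4 * t := by linear_combination ht
      rw [hD, e2, e3]
      ring
    rw [e1, map_mul, map_sub, map_add, map_mul, map_mul, map_one, map_ofNat, map_ofNat,
      em_om2 (iw hi ι)]
  have h1 : ‖em (iw hi ι) D - 1‖ ≤ 1 / 4 := by
    rw [hem]
    exact size_disc (by linear_combination -hw) h (em_le _ _)
  have hn1 : ‖ι (1 - i₀)‖ = 1 := by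
    rw [map_sub, map_one]
    exact one_sub_norm h
  have hsq : (ι r) ^ 2 = em (iw hi ι) D := by rw [← map_pow, kd.hr, ι_em]
  constructor
  · rintro σ ⟨τ, hc, hin⟩
    have h2 : τ (ι r) = ι r := by
      apply fix_four (by rw [hsq]; exact h1) hin
      rw [hsq]
      exact em_fix (iw hi ι) hc.fix D
    have h3 : σ r = r := by
      apply ι.injective
      show ι (σ r) = ι r
      rw [← hc, h2]
    exact (kd.inert' 2 ι τ σ hc hin hn1).1 h3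
  · obtain ⟨φ, hφ, h2⟩ := exists_move hi (ι := ι) (s := u') (by
      rw [← map_pow, k8.hu', map_sub, map_one]
      have e : ι i₀ - 1 - 1 = ι i₀ - 2 := by ring
      rw [e]
      exact norm_om_sub (iw hi ι) h)
    exact ⟨φ, hφ, fun h3 => h2 ((k8.pm' φ).1 h3)⟩

/-- the place where `1 - ω` is not a unit -/
lemma at_om' (kd : KD hi κ κ' D r I) (k8 : K8 κ κ' u u') (hD : D = -(s7 * P))
    (h4 : (4 : OO) ∣ P - 1) {ι : QB →ₐ[ℚ] PadicAlgCl 2} (h : ‖ι (1 - i₀)‖ < 1) :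
    (∀ σ ∈ (II ι : Set (GK i₀)), κ σ = 1) ∧ ∃ φ ∈ (DD ι : Set (GK i₀)), ¬ Pm (κ φ) := by
  have hw := iw hi ι
  obtain ⟨t, ht⟩ := h4
  have hem : em (iw hi ι) (-D) = (1 - 2 * ι (1 - i₀)) * (1 + 4 * em (iw hi ι) t) := by
    have e1 : -D = (1 - 2 * (1 - om)) * (1 + 4 * t) := by
      have e2 := s7_eq
      have e3 : P = 1 + 4 * t := by linear_combination ht
      rw [hD, e2, e3]
      ring
    rw [e1, map_mul, map_sub, map_add, map_mul, map_mul, map_sub, map_one, map_ofNat, map_ofNat,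
      em_om2 (iw hi ι), map_sub, map_one]
  have h1 : ‖em (iw hi ι) (-D) - 1‖ ≤ 1 / 4 := by
    rw [hem]
    refine size_disc ?_ h (em_le _ _)
    rw [map_sub, map_one]
    linear_combination -hw
  have hn1 : ‖ι i₀‖ = 1 := by
    have e : ι i₀ = 1 - ι (1 - i₀) := by rw [map_sub, map_one]; ring
    rw [e]
    exact one_sub_norm h
  have hsq : (ι (I * r)) ^ 2 = em (iw hi ι) (-D) := by
    rw [← map_pow, mul_pow, kd.hI, kd.hr, neg_one_mul, ← map_neg, ι_em]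
  constructor
  · rintro σ ⟨τ, hc, hin⟩
    have h2 : τ (ι (I * r)) = ι (I * r) := by
      apply fix_four (by rw [hsq]; exact h1) hin
      rw [hsq]
      exact em_fix (iw hi ι) hc.fix (-D)
    have h3 : σ (I * r) = I * r := by
      apply ι.injective
      show ι (σ (I * r)) = ι (I * r)
      rw [← hc, h2]
    exact (kd.inert 2 ι τ σ hc hin hn1).1 h3
  · obtain ⟨φ, hφ, h2⟩ := exists_move hi (ι := ι) (s := u) (by
      rw [← map_pow, k8.hu, map_neg]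
      have e : -ι i₀ - 1 = -(ι i₀ + 1) := by ring
      rw [e, norm_neg]
      apply norm_om_add (iw hi ι)
      rw [← map_one ι, ← map_sub]
      exact h)
    exact ⟨φ, hφ, fun h3 => h2 ((k8.pm φ).1 h3)⟩

end

section

variable {χ ψ : GK i₀ →* ℤ_[2]ˣ} {ζ : QB} {σ : GK i₀}

lemma Cy.congr (h : m8 (χ σ : ℤ_[2]) = m8 (ψ σ : ℤ_[2])) (hc : Cy ψ ζ σ) : Cy χ ζ σ := by
  intro k hk
  apply hc
  rw [m8_sub] at hk ⊢
  rw [← h, hk]

lemma Cy.uniq (h4 : ζ ^ 4 = -1) (h1 : Cy χ ζ σ) (h2 : Cy ψ ζ σ) :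
    m8 (χ σ : ℤ_[2]) = m8 (ψ σ : ℤ_[2]) := by
  obtain ⟨k, hk⟩ : ∃ k : ℕ, (k : ZMod (2 ^ 3)) = m8 (χ σ : ℤ_[2]) :=
    ⟨(m8 (χ σ : ℤ_[2])).val, ZMod.natCast_zmod_val _⟩
  obtain ⟨l, hl⟩ : ∃ l : ℕ, (l : ZMod (2 ^ 3)) = m8 (ψ σ : ℤ_[2]) :=
    ⟨(m8 (ψ σ : ℤ_[2])).val, ZMod.natCast_zmod_val _⟩
  have e1 := h1 k (by rw [m8_sub, map_natCast, hk])
  have e2 := h2 l (by rw [m8_sub, map_natCast, hl])
  rw [e1] at e2
  have hord : orderOf ζ = 2 ^ (2 + 1) := by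
    apply orderOf_eq_prime_pow
    · show ¬ ζ ^ 2 ^ 2 = 1
      norm_num
      rw [h4]
      norm_num
    · have e : ζ ^ 2 ^ (2 + 1) = (ζ ^ 4) ^ 2 := by ring
      rw [e, h4]
      norm_num
  have hfin : IsOfFinOrder ζ := by
    rw [← orderOf_pos_iff, hord]
    norm_num
  have h5 := hfin.pow_eq_pow_iff_modEq.1 e2
  rw [hord] at h5
  rw [← hk, ← hl]
  exact (ZMod.natCast_eq_natCast_iff _ _ _).2 h5

/-- the relaxed place: `χ = α` and `α β` is the cyclotomic character modulo eight -/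
lemma relaxed {α β : GK i₀ →* ℤ_[2]ˣ} (h4 : ζ ^ 4 = -1) {ι : QB →ₐ[ℚ] PadicAlgCl 2}
    (hχ : ∀ σ, m8 (χ σ : ℤ_[2]) = m8 (α σ : ℤ_[2])) (hc : ∀ σ, Cy ψ ζ σ)
    (hψ : ∀ σ, m8 (ψ σ : ℤ_[2]) = m8 (α σ : ℤ_[2]) * m8 (β σ : ℤ_[2]))
    (hβ : (∀ σ ∈ (II ι : Set (GK i₀)), β σ = 1) ∧ ∃ φ ∈ (DD ι : Set (GK i₀)), ¬ Pm (β φ)) :
    (∀ σ ∈ (II ι : Set (GK i₀)), Cy χ ζ σ) ∧ ∃ φ ∈ (DD ι : Set (GK i₀)), ¬ Cy χ ζ φ := by
  obtain ⟨h1, φ, hφ, h2⟩ := hβ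
  constructor
  · intro σ hσ
    apply Cy.congr _ (hc σ)
    rw [hχ, hψ, h1 σ hσ, Units.val_one, map_one, mul_one]
  · refine ⟨φ, hφ, fun h3 => h2 ?_⟩
    have h5 := Cy.uniq h4 h3 (hc φ)
    rw [hχ, hψ] at h5
    have h6 : ∀ A B : ZMod (2 ^ 3), (A = 1 ∨ A = 3 ∨ A = 5 ∨ A = 7) → A = A * B → B = 1 := by
      decide
    exact (pm_iff _).2 (Or.inl (h6 _ _ (m8_unit _) h5))

lemma strict_of {α : GK i₀ →* ℤ_[2]ˣ} {ι : QB →ₐ[ℚ] PadicAlgCl 2}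
    (hχ : ∀ σ, m8 (χ σ : ℤ_[2]) = m8 (α σ : ℤ_[2]))
    (hα : (∀ σ ∈ (II ι : Set (GK i₀)), α σ = 1) ∧ ∃ φ ∈ (DD ι : Set (GK i₀)), ¬ Pm (α φ)) :
    (∀ σ ∈ (II ι : Set (GK i₀)), (8 : ℤ_[2]) ∣ (χ σ : ℤ_[2]) - 1) ∧
      ∃ φ ∈ (DD ι : Set (GK i₀)), ¬ (8 : ℤ_[2]) ∣ (χ φ : ℤ_[2]) - 1 := by
  obtain ⟨h1, φ, hφ, h2⟩ := hα
  constructor
  · intro σ hσ
    rw [m8_sub, hχ, h1 σ hσ, Units.val_one]
  · refine ⟨φ, hφ, fun h3 => h2 (Or.inl ?_)⟩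
    rw [m8_sub, hχ] at h3
    rw [m8_sub, h3]

end

lemma s7_ne : (s7 : OO) ≠ 0 := prime_s7.ne_zero

theorem t_PLC : S_PLCT := by
  intro hCYC i₀ hi κ κ' D P r I u u' kd k8 hD h4 j ϖ ϖ' hPl
  have hD0 : D ≠ 0 := by
    intro h0
    rw [hD, neg_eq_zero] at h0
    rcases mul_eq_zero.1 h0 with h | h
    · exact s7_ne h
    · obtain ⟨t, ht⟩ := h4
      rw [h, zero_sub] at ht
      have h5 : om ∣ (1 : OO) := by
        refine ⟨-((1 - om) * 2 * t), ?_⟩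
        have e : om * -((1 - om) * 2 * t) = -(om * (1 - om) * (2 * t)) := by ring
        rw [e, om_mul]
        linear_combination -ht
      exact prime_om.not_isUnit (isUnit_of_dvd_one h5)
  have hcy := fun ζ h4 σ => hCYC i₀ hi κ κ' D r I u u' hD0 kd k8 ζ h4 σ
  have hom : ∀ ι : QB →ₐ[ℚ] PadicAlgCl 2, em (iw hi ι) om = ι i₀ := fun ι => em_om2 (iw hi ι)
  have hom' : ∀ ι : QB →ₐ[ℚ] PadicAlgCl 2, em (iw hi ι) (1 - om) = ι (1 - i₀) := fun ι => by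
    rw [map_sub, map_one, hom, map_sub, map_one]
  rcases hPl with ⟨hj, rfl, rfl⟩ | ⟨hj, rfl, rfl⟩
  · have hχ : ∀ σ, m8 (((κ ^ j * κ' ^ (1 - j) : GK i₀ →* ℤ_[2]ˣ) σ : ℤ_[2]ˣ) : ℤ_[2]) =
        m8 (κ' σ : ℤ_[2]) := fun σ => congrArg Units.val (u8_even (z := κ σ) (z' := κ' σ) hj)
    refine ⟨fun ι hι => ?_, fun ι hι ζ h4' => ?_⟩
    · rw [hom] at hι
      exact strict_of hχ (at_om hi kd k8 hD h4 hι)
    · rw [hom'] at hι
      refine relaxed h4' hχ (hcy ζ h4') (fun σ => ?_) (at_om' hi kd k8 hD h4 hι)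
      rw [MonoidHom.mul_apply, Units.val_mul, map_mul, mul_comm]
  · have hχ : ∀ σ, m8 (((κ ^ j * κ' ^ (1 - j) : GK i₀ →* ℤ_[2]ˣ) σ : ℤ_[2]ˣ) : ℤ_[2]) =
        m8 (κ σ : ℤ_[2]) := fun σ => congrArg Units.val (u8_odd (z := κ σ) (z' := κ' σ) hj)
    refine ⟨fun ι hι => ?_, fun ι hι ζ h4' => ?_⟩
    · rw [hom'] at hι
      exact strict_of hχ (at_om' hi kd k8 hD h4 hι)
    · rw [hom] at hι
      refine relaxed h4' hχ (hcy ζ h4') (fun σ => ?_) (at_om hi kd k8 hD h4 hι)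
      rw [MonoidHom.mul_apply, Units.val_mul, map_mul]

end Pool.Agent.T2h16.BK
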