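import Pool.Agent.T2h16.BK.Stm

/-!
# The relaxed place
-/

set_option autoImplicit false

open scoped Classical

namespace Pool.Agent.T2h16.BK

open Pool.Agent.R384
open Pool.Agent.Y715.Red Pool.Agent.Y715.Nr Pool.Agent.W237.RK
open Pool.Agent.Y715.Gi (QB KK GK i₀_mem gk_fix)
open Pool.Agent.Y715.Df (Cmp exists_cmp)

namespace RL

/-- the powers of `ζ` -/
noncomputable def zp8 (ζ : QB) (a : ZMod (2 ^ 3)) : QB := ζ ^ a.val

section powers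

variable {ζ : QB} (hζ : ζ ^ 4 = -1)

include hζ

lemma z8_one : ζ ^ (2 ^ 3) = 1 := by
  have h : ζ ^ (2 ^ 3) = (ζ ^ 4) ^ 2 := by ring
  rw [h, hζ]
  norm_num

lemma z8_ne : ζ ≠ 0 := by
  rintro rfl
  norm_num at hζ

lemma zp8_nat (k : ℕ) : zp8 ζ (k : ZMod (2 ^ 3)) = ζ ^ k := by
  unfold zp8
  rw [ZMod.val_natCast]
  conv_rhs => rw [← Nat.mod_add_div k (2 ^ 3), pow_add, pow_mul, z8_one hζ, one_pow, mul_one]

lemma zp8_add (a b : ZMod (2 ^ 3)) : zp8 ζ (a + b) = zp8 ζ a * zp8 ζ b := by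
  have h : a + b = ((a.val + b.val : ℕ) : ZMod (2 ^ 3)) := by
    push_cast
    rw [ZMod.natCast_zmod_val, ZMod.natCast_zmod_val]
  rw [h, zp8_nat hζ, pow_add]
  rfl

lemma zp8_mul (a b : ZMod (2 ^ 3)) : zp8 ζ (a * b) = zp8 ζ a ^ b.val := by
  have h : a * b = ((a.val * b.val : ℕ) : ZMod (2 ^ 3)) := by
    push_cast
    rw [ZMod.natCast_zmod_val, ZMod.natCast_zmod_val]
  rw [h, zp8_nat hζ, pow_mul]
  rfl

lemma zp8_ne (a : ZMod (2 ^ 3)) : zp8 ζ a ≠ 0 := pow_ne_zero _ (z8_ne hζ)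

omit hζ in
lemma zp8_one : zp8 ζ 1 = ζ := by
  have h : (1 : ZMod (2 ^ 3)).val = 1 := by decide
  rw [zp8, h, pow_one]

lemma zp8_act {i₀ : QB} {σ : GK i₀} {x : ZMod (2 ^ 3)} (h : σ ζ = zp8 ζ x) (a : ZMod (2 ^ 3)) :
    σ (zp8 ζ a) = zp8 ζ (x * a) := by
  rw [zp8_mul hζ, ← h]
  exact map_pow σ _ _

lemma zp8_root {x : QB} (hx : x ^ 4 = -1) : ∃ b : ZMod (2 ^ 3), b * b = 1 ∧ x = zp8 ζ b := by
  have h1 : (x - ζ) * (x + ζ) * ((x - ζ ^ 3) * (x + ζ ^ 3)) = 0 := by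
    linear_combination hx + (ζ ^ 4 - 1 - x ^ 2 * ζ ^ 2) * hζ
  rcases mul_eq_zero.1 h1 with h2 | h2 <;> rcases mul_eq_zero.1 h2 with h3 | h3
  · exact ⟨1, by decide, by rw [zp8_one]; exact sub_eq_zero.1 h3⟩
  · refine ⟨5, by decide, ?_⟩
    have h : (5 : ZMod (2 ^ 3)).val = 5 := by decide
    rw [zp8, h]
    linear_combination h3 - ζ * hζ
  · refine ⟨3, by decide, ?_⟩
    have h : (3 : ZMod (2 ^ 3)).val = 3 := by decide
    rw [zp8, h]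
    exact sub_eq_zero.1 h3
  · refine ⟨7, by decide, ?_⟩
    have h : (7 : ZMod (2 ^ 3)).val = 7 := by decide
    rw [zp8, h]
    linear_combination h3 - ζ ^ 3 * hζ

end powers

lemma dvd8_iff (z : ℤ_[2]) : (8 : ℤ_[2]) ∣ z ↔ PadicInt.toZModPow 3 z = 0 := by
  have h1 : PadicInt.toZModPow 3 z = 0 ↔ z ∈ RingHom.ker (PadicInt.toZModPow (p := 2) 3) := Iff.rfl
  rw [h1, PadicInt.ker_toZModPow, Ideal.mem_span_singleton]
  have e : ((2 : ℕ) : ℤ_[2]) ^ 3 = 8 := by norm_num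
  rw [e]

/-- the norm and the residue modulo eight -/
lemma dvd8_norm {z : ℤ_[2]} (h : ‖(z : ℚ_[2])‖ < 1 / 8) : PadicInt.toZModPow 3 z = 0 := by
  have h1 : ‖z‖ ≤ ((2 : ℕ) : ℝ) ^ (-((3 : ℕ) : ℤ)) := by
    rw [PadicInt.padic_norm_e_of_padicInt] at h
    have e : ((2 : ℕ) : ℝ) ^ (-((3 : ℕ) : ℤ)) = 1 / 8 := by
      rw [zpow_neg, zpow_natCast]
      norm_num
    rw [e]
    exact h.le
  have h2 := (PadicInt.norm_le_pow_iff_mem_span_pow z 3).1 h1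
  rw [← PadicInt.ker_toZModPow] at h2
  exact h2

section chars

variable {i₀ : QB} {χ : GK i₀ →* ℤ_[2]ˣ} {ζ : QB}

/-- the character modulo eight -/
noncomputable def X8 (χ : GK i₀ →* ℤ_[2]ˣ) (σ : GK i₀) : ZMod (2 ^ 3) :=
  PadicInt.toZModPow 3 (χ σ : ℤ_[2])

lemma X8_mul (σ τ : GK i₀) : X8 χ (σ * τ) = X8 χ σ * X8 χ τ := by
  unfold X8
  rw [map_mul, Units.val_mul, map_mul]

lemma X8_one : X8 χ 1 = 1 := by
  unfold X8
  rw [map_one, Units.val_one, map_one]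

lemma X8_inv (σ : GK i₀) : X8 χ σ * X8 χ σ⁻¹ = 1 := by
  rw [← X8_mul, mul_inv_cancel, X8_one]

lemma X8_sq (σ : GK i₀) : X8 χ σ * X8 χ σ = 1 := by
  have key : ∀ a b : ZMod (2 ^ 3), a * b = 1 → a * a = 1 := by decide
  exact key _ _ (X8_inv σ)

lemma cy_iff (hζ : ζ ^ 4 = -1) (σ : GK i₀) : Cy χ ζ σ ↔ σ ζ = zp8 ζ (X8 χ σ) := by
  constructor
  · intro h
    refine h _ ?_
    rw [dvd8_iff, map_sub, map_natCast, ZMod.natCast_zmod_val]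
    exact sub_self _
  · intro h k hk
    rw [dvd8_iff, map_sub, map_natCast, sub_eq_zero] at hk
    rw [h, X8, hk, zp8_nat hζ]

/-- the subgroup where the character is the cyclotomic character modulo eight -/
noncomputable def HC (hζ : ζ ^ 4 = -1) (χ : GK i₀ →* ℤ_[2]ˣ) : Subgroup (GK i₀) where
  carrier := {σ | σ ζ = zp8 ζ (X8 χ σ)}
  one_mem' := by
    show (1 : GK i₀) ζ = zp8 ζ (X8 χ 1)
    rw [X8_one, zp8_one]
    rfl
  mul_mem' := by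
    intro σ τ hσ hτ
    show (σ * τ) ζ = zp8 ζ (X8 χ (σ * τ))
    have hσ' : σ ζ = zp8 ζ (X8 χ σ) := hσ
    have hτ' : τ ζ = zp8 ζ (X8 χ τ) := hτ
    rw [AlgEquiv.mul_apply, hτ', zp8_act hζ hσ', X8_mul]
  inv_mem' := by
    intro σ hσ
    show σ⁻¹ ζ = zp8 ζ (X8 χ σ⁻¹)
    have hσ' : σ ζ = zp8 ζ (X8 χ σ) := hσ
    apply σ.injective
    rw [← AlgEquiv.mul_apply, mul_inv_cancel, AlgEquiv.one_apply, zp8_act hζ hσ', X8_inv, zp8_one]

lemma mem_HC (hζ : ζ ^ 4 = -1) {σ : GK i₀} : σ ∈ HC hζ χ ↔ σ ζ = zp8 ζ (X8 χ σ) := Iff.rfl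

lemma HC_open (hζ : ζ ^ 4 = -1) (hχ : Continuous χ) : IsOpen (HC hζ χ : Set (GK i₀)) := by
  apply Subgroup.isOpen_of_mem_nhds (g := 1)
  have h1 : {σ : GK i₀ | σ ζ = ζ} ∈ nhds (1 : GK i₀) := by
    rw [krullTopology_mem_nhds_one_iff]
    refine ⟨IntermediateField.adjoin (KK i₀) {ζ}, ?_, ?_⟩
    · exact IntermediateField.adjoin.finiteDimensional
        (Algebra.IsIntegral.isIntegral (R := KK i₀) ζ)
    · intro σ hσ
      exact (IntermediateField.mem_fixingSubgroup_iff _ _).1 hσ ζ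
        (IntermediateField.mem_adjoin_simple_self _ ζ)
  have h2 : {σ : GK i₀ | ‖vl χ σ - vl χ 1‖ < 1 / 8} ∈ nhds (1 : GK i₀) := by
    apply IsOpen.mem_nhds
    · exact isOpen_lt (by have := cont_vl hχ; fun_prop) continuous_const
    · show ‖vl χ 1 - vl χ 1‖ < 1 / 8
      rw [sub_self, norm_zero]
      norm_num
  refine Filter.mem_of_superset (Filter.inter_mem h1 h2) ?_
  rintro σ ⟨h3, h4⟩
  show σ ζ = zp8 ζ (X8 χ σ)
  have h5 : X8 χ σ = 1 := by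
    have h6 : ‖(((χ σ : ℤ_[2]) - 1 : ℤ_[2]) : ℚ_[2])‖ < 1 / 8 := by
      have e : (((χ σ : ℤ_[2]) - 1 : ℤ_[2]) : ℚ_[2]) = vl χ σ - vl χ 1 := by
        rw [vl_one]
        unfold vl
        push_cast
        rfl
      rw [e]
      exact h4
    have h7 := dvd8_norm h6
    rw [map_sub, map_one, sub_eq_zero] at h7
    exact h7
  rw [h5, zp8_one]
  exact h3

variable {c : GK i₀ → ℚ_[2]}

/-- the integral values -/
noncomputable def cI (hc1 : ∀ σ, ‖c σ‖ ≤ 1) (σ : GK i₀) : ℤ_[2] := ⟨c σ, hc1 σ⟩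

lemma cI_coe (hc1 : ∀ σ, ‖c σ‖ ≤ 1) (σ : GK i₀) : ((cI hc1 σ : ℤ_[2]) : ℚ_[2]) = c σ := rfl

/-- the cocycle modulo eight -/
noncomputable def C8 (hc1 : ∀ σ, ‖c σ‖ ≤ 1) (σ : GK i₀) : ZMod (2 ^ 3) :=
  PadicInt.toZModPow 3 (cI hc1 σ)

lemma C8_mul (hc1 : ∀ σ, ‖c σ‖ ≤ 1) (hc : Coc χ c) (σ τ : GK i₀) :
    C8 hc1 (σ * τ) = C8 hc1 σ + X8 χ σ * C8 hc1 τ := by
  have h : cI hc1 (σ * τ) = cI hc1 σ + (χ σ : ℤ_[2]) * cI hc1 τ := by
    apply Subtype.ext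
    exact hc.mul σ τ
  unfold C8 X8
  rw [h, map_add, map_mul]

lemma C8_loc (hc1 : ∀ σ, ‖c σ‖ ≤ 1) (hc : Coc χ c) :
    IsLocallyConstant fun σ => zp8 ζ (C8 hc1 σ) := by
  rw [IsLocallyConstant.iff_exists_open]
  intro σ
  refine ⟨{τ | ‖c τ - c σ‖ < 1 / 8}, ?_, ?_, fun τ hτ => ?_⟩
  · exact isOpen_lt (by have := hc.cont; fun_prop) continuous_const
  · show ‖c σ - c σ‖ < 1 / 8
    rw [sub_self, norm_zero]
    norm_num
  · have hτ' : ‖c τ - c σ‖ < 1 / 8 := hτ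
    have h1 : ‖((cI hc1 τ - cI hc1 σ : ℤ_[2]) : ℚ_[2])‖ < 1 / 8 := by
      rw [PadicInt.coe_sub, cI_coe, cI_coe]
      exact hτ'
    have h2 := dvd8_norm h1
    rw [map_sub, sub_eq_zero] at h2
    show zp8 ζ (C8 hc1 τ) = zp8 ζ (C8 hc1 σ)
    unfold C8
    rw [h2]

lemma md_C8 (hc1 : ∀ σ, ‖c σ‖ ≤ 1) (σ : GK i₀) : md c σ = 0 ↔ Even (C8 hc1 σ).val := by
  rw [md_zero]
  set z : ℤ_[2] := cI hc1 σ with hz
  have h1 : ‖c σ‖ = ‖z‖ := rfl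
  have h2 : (8 : ℤ_[2]) ∣ z - ((C8 hc1 σ).val : ℤ_[2]) := by
    rw [dvd8_iff, map_sub, map_natCast, ZMod.natCast_zmod_val]
    exact sub_self _
  have h3 : (2 : ℤ_[2]) ∣ z - ((C8 hc1 σ).val : ℤ_[2]) := dvd_trans ⟨4, by norm_num⟩ h2
  have h4 : ‖z‖ < 1 ↔ (2 : ℤ_[2]) ∣ z := by
    have := PadicInt.norm_lt_one_iff_dvd (p := 2) z
    exact_mod_cast this
  rw [h1, h4]
  have h5 : (2 : ℤ_[2]) ∣ z ↔ (2 : ℤ_[2]) ∣ ((C8 hc1 σ).val : ℤ_[2]) := (dvd_iff_dvd_of_dvd_sub h3)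
  rw [h5, even_iff_two_dvd]
  constructor
  · intro h
    have h6 : ‖(((C8 hc1 σ).val : ℕ) : ℤ_[2])‖ < 1 := by
      rw [PadicInt.norm_lt_one_iff_dvd]
      exact_mod_cast h
    have h7 := (PadicInt.norm_int_lt_one_iff_dvd (p := 2) ((C8 hc1 σ).val : ℤ)).1
      (by exact_mod_cast h6)
    exact_mod_cast h7
  · rintro ⟨k, hk⟩
    rw [hk]
    push_cast
    exact dvd_mul_right _ _

end chars

end RL

open RL in
/-- the relaxed place -/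
theorem t_REL : S_RELT := by
  intro h90 i₀ hi χ c hχ hc hc1 ι ϖ hϖ hι ζ hζ hI hφ δ s hδ hs hk hdvd
  have hζ0 : ζ ≠ 0 := z8_ne hζ
  -- the element `y`
  obtain ⟨y, hy0, hy⟩ := h90 i₀ (HC hζ χ) (HC_open hζ hχ) (fun σ => zp8 ζ (C8 hc1 σ))
    (C8_loc hc1 hc) (fun σ => zp8_ne hζ _) (fun σ hσ τ hτ => by
      show zp8 ζ (C8 hc1 (σ * τ)) = zp8 ζ (C8 hc1 σ) * σ (zp8 ζ (C8 hc1 τ))
      rw [C8_mul hc1 hc, zp8_add hζ, zp8_act hζ (x := X8 χ σ) hσ])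
  -- the norms of the elements fixed by `H`
  have fixed : ∀ z : QB, z ≠ 0 → (∀ σ ∈ HC hζ χ, σ z = z) → ∃ m : ℤ, ‖ι z‖ = (2 : ℝ) ^ m := by
    intro z hz h
    have h1 := norm_odd (iw hi ι) (by norm_num) (z := ι z) ((map_ne_zero ι).2 hz)
      (fun τ hτ h2 => fix_I (fun σ hσ => h σ ((cy_iff hζ σ).1 (hI σ hσ))) τ hτ h2)
    simpa using h1
  have nz : ∀ a, ‖ι (zp8 ζ a)‖ = 1 := by
    intro a
    have h1 : ‖ι ζ‖ = 1 := by
      have h2 := congrArg (fun x => ‖ι x‖) hζ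
      simp only [map_pow, map_neg, map_one, norm_neg, norm_one, norm_pow] at h2
      exact (pow_eq_one_iff_of_nonneg (norm_nonneg _) (by norm_num)).1 h2
    unfold zp8
    rw [map_pow, norm_pow, h1, one_pow]
  set N : ℝ := ‖ι y‖ with hN
  have hN0 : N ≠ 0 := by
    rw [hN, norm_ne_zero_iff]
    exact (map_ne_zero ι).2 hy0
  -- `y ^ 8`
  obtain ⟨k8, hk8⟩ := fixed (y ^ 8) (pow_ne_zero _ hy0) (fun σ hσ => by
    have h1 : (zp8 ζ (C8 hc1 σ)) ^ 8 = 1 := by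
      unfold zp8
      rw [← pow_mul, mul_comm, pow_mul]
      have := z8_one hζ
      norm_num at this
      rw [this, one_pow]
    rw [map_pow, hy σ hσ, mul_pow, h1, one_mul])
  rw [map_pow, norm_pow] at hk8
  -- the element of the decomposition group
  obtain ⟨φ, ⟨τ, hτ⟩, hφn⟩ := hφ
  rw [cy_iff hζ] at hφn
  obtain ⟨b, hb1, hb2⟩ := zp8_root hζ (x := φ ζ) (by rw [← map_pow, hζ, map_neg, map_one])
  have hx1 := X8_sq (χ := χ) φ
  set x := X8 χ φ with hx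
  set a := b * x with ha
  have ha1 : a * a = 1 := by
    have : a * a = (b * b) * (x * x) := by rw [ha]; ring
    rw [this, hb1, hx1, one_mul]
  have ha2 : a ≠ 1 := by
    intro h
    apply hφn
    rw [hb2]
    congr 1
    calc b = b * (x * x) := by rw [hx1, mul_one]
      _ = (b * x) * x := by ring
      _ = x := by rw [← ha, h, one_mul]
  have ha3 : a.val = 3 ∨ a.val = 5 ∨ a.val = 7 := by
    have key : ∀ a : ZMod (2 ^ 3), a * a = 1 → a ≠ 1 → a.val = 3 ∨ a.val = 5 ∨ a.val = 7 := by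
      decide
    exact key a ha1 ha2
  have hφinv : φ⁻¹ ζ = zp8 ζ b := by
    apply φ.injective
    rw [← AlgEquiv.mul_apply, mul_inv_cancel, AlgEquiv.one_apply, zp8_act hζ hb2, hb1, zp8_one]
  obtain ⟨m1, hm1⟩ := fixed (φ y / (y ^ a.val * zp8 ζ (a * C8 hc1 φ)))
    (div_ne_zero ((map_ne_zero φ).2 hy0) (mul_ne_zero (pow_ne_zero _ hy0) (zp8_ne hζ _))) (by
      intro σ hσ
      have hσ' : σ ζ = zp8 ζ (X8 χ σ) := hσ
      set σ' := φ⁻¹ * σ * φ with hσ'd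
      have hmem : σ' ∈ HC hζ χ := by
        rw [mem_HC, hσ'd, AlgEquiv.mul_apply, AlgEquiv.mul_apply, hb2, zp8_act hζ hσ',
          zp8_act hζ hφinv, X8_mul, X8_mul]
        congr 1
        have h1 : X8 χ φ⁻¹ * X8 χ φ = 1 := by rw [mul_comm]; exact X8_inv φ
        calc b * (X8 χ σ * b) = (b * b) * X8 χ σ := by ring
          _ = (X8 χ φ⁻¹ * X8 χ φ) * X8 χ σ := by rw [hb1, h1]
          _ = X8 χ φ⁻¹ * X8 χ σ * X8 χ φ := by ring
      have hcomm : φ * σ' = σ * φ := by rw [hσ'd]; group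
      have h1 : σ (φ y) = zp8 ζ (b * C8 hc1 σ') * φ y := by
        rw [← AlgEquiv.mul_apply, ← hcomm, AlgEquiv.mul_apply, hy σ' hmem, map_mul,
          zp8_act hζ hb2]
      have h2 : C8 hc1 φ + x * C8 hc1 σ' = C8 hc1 σ + X8 χ σ * C8 hc1 φ := by
        rw [hx, ← C8_mul hc1 hc, ← C8_mul hc1 hc, hcomm]
      have h3 : b * C8 hc1 σ' + a * C8 hc1 φ = C8 hc1 σ * a + X8 χ σ * (a * C8 hc1 φ) := by
        calc b * C8 hc1 σ' + a * C8 hc1 φ = b * (x * x) * C8 hc1 σ' + a * C8 hc1 φ := by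
              rw [hx1, mul_one]
          _ = a * (C8 hc1 φ + x * C8 hc1 σ') := by rw [ha]; ring
          _ = a * (C8 hc1 σ + X8 χ σ * C8 hc1 φ) := by rw [h2]
          _ = _ := by ring
      have h4 : zp8 ζ (b * C8 hc1 σ') * zp8 ζ (a * C8 hc1 φ) =
          zp8 ζ (C8 hc1 σ) ^ a.val * zp8 ζ (X8 χ σ * (a * C8 hc1 φ)) := by
        rw [← zp8_add hζ, h3, zp8_add hζ, zp8_mul hζ (C8 hc1 σ) a]
      have e1 := zp8_ne hζ (a * C8 hc1 φ)
      have e2 := zp8_ne hζ (X8 χ σ * (a * C8 hc1 φ))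
      have e3 := pow_ne_zero a.val (zp8_ne hζ (C8 hc1 σ))
      have e4 := pow_ne_zero a.val hy0
      rw [map_div₀, map_mul, map_pow, h1, hy σ hσ, zp8_act hζ hσ', mul_pow,
        div_eq_div_iff (mul_ne_zero (mul_ne_zero e3 e4) e2) (mul_ne_zero e4 e1)]
      linear_combination (φ y * y ^ a.val) * h4)
  have hm2 : N / N ^ a.val = (2 : ℝ) ^ m1 := by
    rw [← hm1, map_div₀, norm_div, map_mul, norm_mul, map_pow, norm_pow, nz, mul_one, ← hτ, nrm]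
  -- `N ^ 4`
  obtain ⟨l, hl⟩ : ∃ l : ℤ, N ^ 4 = (2 : ℝ) ^ l := by
    have h20 : (2 : ℝ) ≠ 0 := two_ne_zero
    rcases ha3 with h | h | h
    · rw [h] at hm2
      refine ⟨-(2 * m1), ?_⟩
      have e : N ^ 4 = ((N / N ^ 3) ^ 2)⁻¹ := by field_simp
      rw [e, hm2, ← zpow_natCast, ← zpow_mul, ← zpow_neg]
      congr 1
      push_cast
      ring
    · rw [h] at hm2
      refine ⟨-m1, ?_⟩
      have e : N ^ 4 = (N / N ^ 5)⁻¹ := by field_simp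
      rw [e, hm2, ← zpow_neg]
    · rw [h] at hm2
      refine ⟨-(2 * m1) - k8, ?_⟩
      have e : N ^ 4 = ((N / N ^ 7) ^ 2)⁻¹ / N ^ 8 := by field_simp
      rw [e, hm2, hk8, ← zpow_natCast, ← zpow_mul, ← zpow_neg, ← zpow_sub₀ h20]
      congr 1
      push_cast
      ring
  -- `s / y ^ 4`
  have hs0 : s ≠ 0 := by
    rintro rfl
    have h1 := em_inj hi (z := δ) (by rw [← hs]; ring)
    exact hδ.ne_zero h1
  obtain ⟨m3, hm3⟩ := fixed (s / y ^ 4) (div_ne_zero hs0 (pow_ne_zero _ hy0)) (by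
    intro σ hσ
    have h1 : zp8 ζ (C8 hc1 σ) ^ 4 = (-1) ^ (C8 hc1 σ).val := by
      unfold zp8
      rw [← pow_mul, mul_comm, pow_mul, hζ]
    rw [map_div₀, map_pow, hy σ hσ, mul_pow, h1]
    have h2 := (hk σ).trans (md_C8 hc1 σ)
    have e4 := pow_ne_zero 4 hy0
    rcases Nat.even_or_odd (C8 hc1 σ).val with h3 | h3
    · rw [h2.2 h3, h3.neg_one_pow, one_mul]
    · have h4 : σ s ≠ s := fun h => (Nat.not_even_iff_odd.2 h3) (h2.1 h)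
      rcases rt_or hi hs σ with h5 | h5
      · exact absurd h5 h4
      · rw [h5, h3.neg_one_pow]
        field_simp)
  have hms : ‖ι s‖ = (2 : ℝ) ^ (m3 + l) := by
    rw [map_div₀, norm_div, map_pow, norm_pow] at hm3
    rw [zpow_add₀ two_ne_zero, ← hm3, ← hl, ← hN]
    field_simp
  -- the contradiction
  obtain ⟨t, rfl⟩ := hdvd
  have ht : ¬ ϖ ∣ t := by
    rintro ⟨v, rfl⟩
    exact hϖ.not_isUnit (hδ ϖ ⟨v, by ring⟩)
  have h1 := eq_one_of_not_lt (iw hi ι) ((dvd_iff (iw hi ι) hϖ hι t).not.1 ht)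
  have h2 : ‖ι s‖ ^ 2 = ((2 : ℕ) : ℝ)⁻¹ := by
    rw [← norm_prime (iw hi ι) (by norm_num) hϖ hι, ← norm_pow, ← map_pow, hs, ι_em, map_mul,
      norm_mul, h1, mul_one]
  rw [hms, ← zpow_neg_one, ← zpow_natCast, ← zpow_mul] at h2
  push_cast at h2
  have h4 := zpow_right_injective₀ (a := (2 : ℝ)) (by norm_num) (by norm_num) h2
  omega

end Pool.Agent.T2h16.BK
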