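import Pool.Agent.T2h16.BK.Stm
import Pool.Agent.T2h62.BK.Base

/-!
# Project BK: the strict place
-/

set_option autoImplicit false
set_option linter.unusedVariables false

open scoped Classical

namespace Pool.Agent.T2h16.BK

open Pool.Agent.R384 Pool.Agent.T2h62.BK
open Pool.Agent.Y715.Red Pool.Agent.Y715.Nr Pool.Agent.W237.RK
open Pool.Agent.Y715.Gi (QB KK GK i₀_mem gk_fix)
open Pool.Agent.Y715.Df (Cmp exists_cmp)

lemma dvd8_norm (z : ℤ_[2]) : (8 : ℤ_[2]) ∣ z ↔ ‖(z : ℚ_[2])‖ ≤ 1 / 8 := by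
  rw [PadicInt.padic_norm_e_of_padicInt]
  have h := PadicInt.norm_le_pow_iff_mem_span_pow (p := 2) z 3
  rw [Ideal.mem_span_singleton] at h
  have e : (((2 : ℕ) : ℤ_[2]) ^ 3) = 8 := by norm_num
  have e2 : (((2 : ℕ) : ℝ) ^ (-((3 : ℕ) : ℤ))) = 1 / 8 := by norm_num
  rw [e, e2] at h
  exact h.symm

theorem t_STR : S_STR := by
  intro i₀ hi χ c hc1 ι ϖ hϖ hι hcob hI hφ δ s hδ hs hk
  obtain ⟨y, hy⟩ := hcob
  obtain ⟨φ, hφD, hφ8⟩ := hφ
  have hvl : ∀ σ, vl χ σ - 1 = (((χ σ : ℤ_[2]) - 1 : ℤ_[2]) : ℚ_[2]) := by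
    intro σ
    unfold vl
    push_cast
    rfl
  have h1 : 1 / 8 < ‖vl χ φ - 1‖ := by
    rw [hvl]
    by_contra h
    push Not at h
    exact hφ8 ((dvd8_norm _).2 h)
  have h2 : ‖y‖ < 8 := by
    have h3 := hc1 φ
    rw [hy φ hφD, norm_mul] at h3
    by_contra h4
    push Not at h4
    nlinarith [norm_nonneg y]
  have h3 : ∀ σ ∈ (II ι : Set (GK i₀)), σ s = s := by
    intro σ hσ
    rw [hk σ, md_zero, hy σ (II_sub hσ), norm_mul]
    have h4 : ‖vl χ σ - 1‖ ≤ 1 / 8 := by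
      rw [hvl]
      exact (dvd8_norm _).1 (hI σ hσ)
    nlinarith [norm_nonneg y, norm_nonneg (vl χ σ - 1)]
  have hfix : ∀ τ : Au 2, Inert τ → τ (ι i₀) = ι i₀ → τ (ι s) = ι s :=
    fun τ hin hτ => fix_I h3 τ hin hτ
  have hsq : (ι s) ^ 2 = em (iw hi ι) δ := by rw [← map_pow, hs, ι_em]
  have hnd := not_dvd_of_fix (iw hi ι) hϖ hι hδ hsq hfix
  refine ⟨hnd, ?_⟩
  have h5 := eq_one_of_not_lt (iw hi ι) ((dvd_iff (iw hi ι) hϖ hι δ).not.1 hnd)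
  have h6 : ‖ι s‖ = 1 := by
    rw [← hsq, norm_pow] at h5
    exact (pow_eq_one_iff_of_nonneg (norm_nonneg _) two_ne_zero).1 h5
  have h7 := four_of_fix (iw hi ι) h6 (fun τ => by
    rw [hsq]
    exact em_fix (iw hi ι) (two_fix (iw hi ι) τ) δ) hfix
  rwa [hsq] at h7

end Pool.Agent.T2h16.BK
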