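import Pool.Agent.R384.X.Mq7
import Pool.Agent.T2h16.KE.Stm

/-!
# Project BK (helper16): the Bloch–Kato Selmer groups of all odd weights over `K = ℚ(√-7)`

`D = -√-7 P`, `P = ∏ S`, `P = 1 mod 4`, for the twists of `X_0(49)` by `P` in `ℤ[ω]`. Statements of the
parts. Model: `Pool/Agent/R384/{End,X/Loc7,X/Main7,X/Mq7}.lean`, where `P = 1 mod 8` and the
prime factors are `1 mod 4`. The curve is `y² = x³ + 3 (1 - w) m x² + w⁴ m² x` (`R384/Curve.lean`).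
`GK i₀` is the Galois group of `ℚ̄` over `ℚ(i₀)`, `i₀² = i₀ - 2`, and `κ`, `κ'` are the two characters of
the Tate module. `OO = ℤ[ω] = QuadraticAlgebra ℤ (-2) 1`, `om = ω`, `s7 = 2 ω - 1`.
-/

set_option autoImplicit false
set_option linter.unusedVariables false

open scoped Classical

namespace Pool.Agent.T2h16.BK

open WeierstrassCurve Pool.Agent.Y676.IS
open Pool.Agent.R384
open Pool.Agent.Y715.Red Pool.Agent.Y715.Nr Pool.Agent.W237.RK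
open Pool.Agent.Y715.Gi (QB KK GK i₀_mem gk_fix)
open Pool.Agent.Y715.Df (Cmp exists_cmp)
open Pool.Agent.Y698 (RR)
open Pool.Agent.T2h16.KD (Cl)

/-- `z` is `± 1` modulo `8` -/
def Pm (z : ℤ_[2]) : Prop := (8 : ℤ_[2]) ∣ z - 1 ∨ (8 : ℤ_[2]) ∣ z + 1

/-- the characters `κ`, `κ'` modulo `8` -/
structure K8 {i₀ : QB} (κ κ' : GK i₀ →* ℤ_[2]ˣ) (u u' : QB) : Prop where
  hu : u ^ 2 = -i₀
  hu' : u' ^ 2 = i₀ - 1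
  pm : ∀ σ : GK i₀, Pm (κ σ) ↔ σ u = u
  pm' : ∀ σ : GK i₀, Pm (κ' σ) ↔ σ u' = u'

/-- TASK M8: the points of order eight. Proof: `eF (eF (x 3)) = tA` (compare `Tow.two` in
`R384/Kap.lean`), so `eF (x 3)` has the abscissa `w² m` (lemma `four` in `R384`), and the abscissa `x` of
`x 3` satisfies `x² - 2 w m x + w⁴ m² = 0` (`eF = shF ∘ isoF`; `(1 - w)² (w² + 1) = 4 + (1 - w)²`), so
`x = w m ± w m (1 - w) u`. -/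
def S_M8 : Prop := ∀ (w m : QB) (h : WD w m) (x : ℕ → (Cu (ca w m) (cb w m)).Point),
  Tow (eF h) (tA h) x → ∀ u : QB, u ^ 2 = w - 1 → ∀ (g : QB →+* QB) (hg : Fx w m g),
    (g u = u → galH h g hg (x 3) = x 3 ∨ galH h g hg (x 3) = -x 3) ∧
    (g u = -u → galH h g hg (x 3) ≠ x 3 ∧ galH h g hg (x 3) ≠ -x 3)

/-- TASK KD8: the characters, modulo `8` (`exists_kap`, `exists_kd` in `R384/{Kap,End}.lean`; `κ` comes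
from the curve for `1 - i₀`, `-D`) -/
def S_KD8 : Prop := S_M8 → ∀ (i₀ : QB) (hi : i₀ ^ 2 = i₀ - 2) (D : OO), D ≠ 0 →
  ∀ (h : WD i₀ (em hi D)) (r I : QB), r ^ 2 = em hi D → I ^ 2 = -1 →
  ∀ fx : ∀ σ : GK i₀, Fx i₀ (em hi D) (rh σ),
    ∃ (κ κ' : GK i₀ →* ℤ_[2]ˣ) (x y : ℕ → (Cu (ca i₀ (em hi D)) (cb i₀ (em hi D))).Point)
      (u u' : QB),
      KD hi κ κ' D r I ∧ K8 κ κ' u u' ∧ Tow (eF h) (tA h) x ∧ Tow (eG h) (tB h) y ∧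
      (∀ σ, ActsBy x (act h fx σ) (κ' σ)) ∧ ∀ σ, ActsBy y (act h fx σ) (κ σ)

/-- `χ` is the cyclotomic character modulo `8` at `σ` (`ζ⁴ = -1`) -/
def Cy {i₀ : QB} (χ : GK i₀ →* ℤ_[2]ˣ) (ζ : QB) (σ : GK i₀) : Prop :=
  ∀ k : ℕ, (8 : ℤ_[2]) ∣ (χ σ : ℤ_[2]) - k → σ ζ = ζ ^ k

/-- TASK CYC: the product is the cyclotomic character modulo `8` (`(u u')² = 2`, `I ~ √-1`) -/
def S_CYC : Prop := ∀ (i₀ : QB) (hi : i₀ ^ 2 = i₀ - 2) (κ κ' : GK i₀ →* ℤ_[2]ˣ) (D : OO)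
  (r I u u' : QB), D ≠ 0 → KD hi κ κ' D r I → K8 κ κ' u u' →
    ∀ ζ : QB, ζ ^ 4 = -1 → ∀ σ : GK i₀, Cy (κ * κ') ζ σ

/-- TASK H90: Hilbert 90 for the open subgroups -/
def S_H90 : Prop := ∀ (i₀ : QB) (H : Subgroup (GK i₀)), IsOpen (H : Set (GK i₀)) →
  ∀ f : GK i₀ → QB, IsLocallyConstant f → (∀ σ, f σ ≠ 0) →
    (∀ σ ∈ H, ∀ τ ∈ H, f (σ * τ) = f σ * σ (f τ)) →
      ∃ y : QB, y ≠ 0 ∧ ∀ σ ∈ H, σ y = f σ * y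

/-- the relaxed place -/
def S_REL : Prop := ∀ (i₀ : QB) (hi : i₀ ^ 2 = i₀ - 2) (χ : GK i₀ →* ℤ_[2]ˣ) (c : GK i₀ → ℚ_[2]),
  Continuous χ → Coc χ c → (∀ σ, ‖c σ‖ ≤ 1) →
  ∀ (ι : QB →ₐ[ℚ] PadicAlgCl 2) (ϖ : OO), Prime ϖ → ‖em (iw hi ι) ϖ‖ < 1 →
  ∀ ζ : QB, ζ ^ 4 = -1 → (∀ σ ∈ (II ι : Set (GK i₀)), Cy χ ζ σ) →
    (∃ φ ∈ (DD ι : Set (GK i₀)), ¬ Cy χ ζ φ) →
  ∀ (δ : OO) (s : QB), Squarefree δ → s ^ 2 = em hi δ → (∀ σ : GK i₀, σ s = s ↔ md c σ = 0) →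
    ¬ ϖ ∣ δ

/-- TASK REL. Proof: `H = {σ | Cy χ ζ σ}` is an open subgroup; by H90 there is `y ≠ 0` with
`σ y = ζ ^ (c σ) y` on `H` (`c σ` modulo `8`). For `φ ∈ DD ι`, `φ ∉ H`, let `a = cyc(φ) χ(φ)⁻¹ mod 8`,
`a ∈ {3, 5, 7}`; then `φ(y) / (y ^ a ζ ^ (a c(φ)))` is fixed by `H` (`φ σ φ⁻¹ ∈ H` for `σ ∈ H`,
`c (φ σ φ⁻¹) = χ(φ) c(σ) + (1 - χ(σ)) c(φ)`), and `y ^ 8` too. The elements of `ι(ℚ̄)` fixed by the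
inertia group have norm in `2 ^ ℤ` (`norm_odd`, `fix_I`), so `‖ι y‖ ^ 4 ∈ 2 ^ ℤ`; `s / y ^ 4` is fixed by
`H`, so `‖ι s‖ ∈ 2 ^ ℤ`. -/
def S_RELT : Prop := S_H90 → S_REL

/-- TASK STR: the strict place. Proof: `c σ = (χ σ - 1) y` on `DD ι`, `‖y‖ ≤ 4`, so `md c = 0` on `II ι`,
so `ι s` is fixed by the inertia group; if `δ = 3 mod 4` then `‖ι s - 1‖ = 2 ^ (-1/2)`, against
`norm_odd`. -/
def S_STR : Prop := ∀ (i₀ : QB) (hi : i₀ ^ 2 = i₀ - 2) (χ : GK i₀ →* ℤ_[2]ˣ) (c : GK i₀ → ℚ_[2]),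
  (∀ σ, ‖c σ‖ ≤ 1) →
  ∀ (ι : QB →ₐ[ℚ] PadicAlgCl 2) (ϖ : OO), Prime ϖ → ‖em (iw hi ι) ϖ‖ < 1 → CobOn χ (DD ι) c →
    (∀ σ ∈ (II ι : Set (GK i₀)), (8 : ℤ_[2]) ∣ (χ σ : ℤ_[2]) - 1) →
    (∃ φ ∈ (DD ι : Set (GK i₀)), ¬ (8 : ℤ_[2]) ∣ (χ φ : ℤ_[2]) - 1) →
  ∀ (δ : OO) (s : QB), Squarefree δ → s ^ 2 = em hi δ → (∀ σ : GK i₀, σ s = s ↔ md c σ = 0) →
    ¬ ϖ ∣ δ ∧ ‖em (iw hi ι) δ - 1‖ ≤ 1 / 4

/-- the strict and the relaxed prime -/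
def Pl (j : ℤ) (ϖ ϖ' : OO) : Prop :=
  (Even j ∧ ϖ = om ∧ ϖ' = 1 - om) ∨ (Odd j ∧ ϖ = 1 - om ∧ ϖ' = om)

/-- the characters at the places above two -/
def S_PLC : Prop := ∀ (i₀ : QB) (hi : i₀ ^ 2 = i₀ - 2) (κ κ' : GK i₀ →* ℤ_[2]ˣ) (D P : OO)
  (r I u u' : QB), KD hi κ κ' D r I → K8 κ κ' u u' → D = -(s7 * P) → (4 : OO) ∣ P - 1 →
  ∀ (j : ℤ) (ϖ ϖ' : OO), Pl j ϖ ϖ' →
    (∀ ι : QB →ₐ[ℚ] PadicAlgCl 2, ‖em (iw hi ι) ϖ‖ < 1 →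
      (∀ σ ∈ (II ι : Set (GK i₀)), (8 : ℤ_[2]) ∣ (((κ ^ j * κ' ^ (1 - j) : GK i₀ →* ℤ_[2]ˣ) σ :
        ℤ_[2]ˣ) : ℤ_[2]) - 1) ∧
      ∃ φ ∈ (DD ι : Set (GK i₀)), ¬ (8 : ℤ_[2]) ∣ (((κ ^ j * κ' ^ (1 - j) : GK i₀ →* ℤ_[2]ˣ) φ :
        ℤ_[2]ˣ) : ℤ_[2]) - 1) ∧
    ∀ ι : QB →ₐ[ℚ] PadicAlgCl 2, ‖em (iw hi ι) ϖ'‖ < 1 → ∀ ζ : QB, ζ ^ 4 = -1 →
      (∀ σ ∈ (II ι : Set (GK i₀)), Cy (κ ^ j * κ' ^ (1 - j)) ζ σ) ∧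
      ∃ φ ∈ (DD ι : Set (GK i₀)), ¬ Cy (κ ^ j * κ' ^ (1 - j)) ζ φ

/-- TASK PLC. Proof: squares are `1` modulo `8`. `j` even: `χ = κ'` modulo `8`. At `ϖ = om`
(`‖ι i₀‖ < 1`, `ι i₀ = 6 mod 8`): `κ' = ± 1` on the inertia group according to the action on `r`
(`KD.inert'`), and `r² = D = 1 mod 4` there, so `r` and `κ'` are unramified; `u'² = i₀ - 1 = 5 mod 8`, so `u'`
is not fixed by the decomposition group (`sq_mod_eight`). At `ϖ' = 1 - om`: `κ κ'` is the cyclotomic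
character modulo `8`, so `χ` is it times `κ` modulo `8`, and the same for `κ`, `I r`, `-D`, `u² = -i₀`
(`KD.inert`). `j` odd: `χ = κ` modulo `8`, the places swapped. Compare `s7_five`, `exists_dec5`. -/
def S_PLCT : Prop := S_CYC → S_PLC

/-- the embedding of the ring of the projects KD, KE -/
noncomputable def er : RR →+* OO := Pool.Agent.Y698.ev om om_sq

/-- the algebra -/
def S_ALG8 : Prop := ∀ (S : Finset RR) (t : RR) (P m ϖ δ : OO), Cl S → ∏ π ∈ S, π = 1 + 4 * t →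
  KD.Gd S → P = er (1 + 4 * t) →
  ((ϖ = om ∧ m = -(s7 * P)) ∨ (ϖ = 1 - om ∧ m = s7 * P)) → Squarefree δ →
  (∀ π, Prime π → π ∣ δ → π ∣ s7 ∨ π ∣ P) → ϖ ^ 2 ∣ δ - 1 →
  (∀ π, Prime π → π ∣ P → (¬ π ∣ δ ∧ Sqm π δ) ∨
    ∃ δ1 m1, δ = π * δ1 ∧ m = π * m1 ∧ Sqm π (δ1 * m1)) → δ = 1 ∨ δ = m

/-- TASK ALG8. Proof: choose a number field `K` with `j : RR ≃+* 𝓞 K` (`KE.S_JEX`; the inverse of `er` is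
`em aR_sq`); the class `δ` satisfies `KE.PDK a (1 + 4 t)` with `1 - a = ϖ` (`a = ω` for `ϖ = 1 - om`,
`a = 1 - ω` for `ϖ = om`), so `KE.S_LCK` (for `ϖ = om` applied to the conjugate set, see `tri_iff` in
`KE/Fin.lean` and `Lc.gen_v`, `Lc.ev_j` in `KE/LCK.lean`) gives `δ ~ 1` or `δ ~ m` up to squares; both are
squarefree, the units are `± 1`, and `-1` is no square. -/
def S_ALG8T : Prop := KE.S_JEX → KE.S_GCJ → KE.S_LCK → S_ALG8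

/-- TASK LOCQ: the local condition at a prime divisor of `m` (`loc_q` in `R384/Main.lean` without
`q = 1 mod 4`) -/
def S_LOCQ : Prop := ∀ (i₀ : QB) (hi : i₀ ^ 2 = i₀ - 2) (χ : GK i₀ →* ℤ_[2]ˣ) (m : OO) (r : QB),
  ChiD hi χ m r → ∀ c : GK i₀ → ℚ_[2], Coc χ c → (∀ σ, ‖c σ‖ ≤ 1) →
  ∀ (q m1 : OO), Prime q → ¬ q ∣ 2 → ¬ q ∣ s7 → m = q * m1 → ¬ q ∣ m1 →
  ∀ (p : ℕ) [Fact p.Prime] (ι : QB →ₐ[ℚ] PadicAlgCl p), ‖em (iw hi ι) q‖ < 1 → CobOn χ (II ι) c →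
  ∀ (δ : OO) (s : QB), Squarefree δ → s ^ 2 = em hi δ → (∀ σ : GK i₀, σ s = s ↔ md c σ = 0) →
    (¬ q ∣ δ ∧ Sqm q δ) ∨ ∃ δ1 m1, δ = q * δ1 ∧ m = q * m1 ∧ Sqm q (δ1 * m1)

/-- the vanishing over `K` -/
def S_VAN8 : Prop := ∀ (i₀ : QB) (hi : i₀ ^ 2 = i₀ - 2) (κ κ' : GK i₀ →* ℤ_[2]ˣ) (D : OO)
  (r I u u' : QB) (S : Finset RR) (t : RR), KD hi κ κ' D r I → K8 κ κ' u u' → Cl S →
  ∏ π ∈ S, π = 1 + 4 * t → KD.Gd S → D = -(s7 * er (1 + 4 * t)) → ∀ (j : ℤ) (ϖ ϖ' : OO), Pl j ϖ ϖ' → ∀ c : GK i₀ → ℚ_[2],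
    Coc (κ ^ j * κ' ^ (1 - j)) c →
    (∀ (p : ℕ) [Fact p.Prime] (ι : QB →ₐ[ℚ] PadicAlgCl p), p ≠ 2 →
      CobOn (κ ^ j * κ' ^ (1 - j)) (II ι) c) →
    (∀ ι : QB →ₐ[ℚ] PadicAlgCl 2, ‖ι (em hi ϖ)‖ < 1 → CobOn (κ ^ j * κ' ^ (1 - j)) (DD ι) c) →
      ∃ y : ℚ_[2], ∀ σ, c σ = (vl (κ ^ j * κ' ^ (1 - j)) σ - 1) * y

/-- TASK VAN8 (`main7`, `chiD7`, `vanish7` in `R384/X/Main7.lean`; the element `σ₀` with `σ₀ r = -r` from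
`exists_ram` at `s7`) -/
def S_VAN8T : Prop := S_REL → S_STR → S_PLC → S_ALG8 → S_LOCQ → S_VAN8

/-- the vanishing over the multiquadratic fields -/
def S_MQ8 : Prop := ∀ (i₀ : QB) (hi : i₀ ^ 2 = i₀ - 2) (κ κ' : GK i₀ →* ℤ_[2]ˣ) (D : OO)
  (r I u u' : QB) (n : ℕ) (s : Fin n → QB) (E : Fin n → OO), (∀ i, s i ^ 2 = em hi (E i)) →
  KD hi κ κ' D r I → K8 κ κ' u u' → D ≠ 0 → (∀ i, E i ≠ 0) →
  (∀ T : Finset (Fin n), ∃ (S : Finset RR) (t : RR) (z : OO), Cl S ∧ ∏ π ∈ S, π = 1 + 4 * t ∧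
    KD.Gd S ∧ z ≠ 0 ∧ D * ∏ i ∈ T, E i = -(s7 * er (1 + 4 * t)) * z ^ 2) →
  ∀ (j : ℤ) (ϖ ϖ' : OO), Pl j ϖ ϖ' → VanOn hi ϖ (κ ^ j * κ' ^ (1 - j)) (fixs s Finset.univ)

/-- TASK MQ8 (`vanish_mq` in `R384/X/Mq7.lean`; `K8` is stable under the twists by `sgc`) -/
def S_MQ8T : Prop := S_VAN8 → S_MQ8

end Pool.Agent.T2h16.BK
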