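import Pool.Agent.T2h16.KD.Rcp
import Pool.Agent.R428.Q0.Cls

/-!
# Project BK: adding an inert rational prime to a good set
-/

set_option autoImplicit false

open scoped Classical

namespace Pool.Agent.T2h16.BK

open Pool.Agent.Y698 Pool.Agent.Y698.SG
open Pool.Agent.T2h78.TW (PO te sl Iq qs)
open Pool.Agent.W192.HK (sp)
open Pool.Agent.T2h16.KD (Cl Gd Sol cs cc)

/-- the rational primes used -/
structure Ip (p : ℕ) : Prop where
  pr : p.Prime
  m4 : p % 4 = 1
  m7 : p % 7 = 3 ∨ p % 7 = 5 ∨ p % 7 = 6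

variable {p : ℕ} (h : Ip p)

include h in
lemma Ip.iq : Iq p := by
  refine ⟨⟨h.pr, ?_, ?_⟩, ?_⟩
  · rintro rfl
    exact absurd h.m4 (by norm_num)
  · rintro rfl
    rcases h.m7 with h | h | h <;> exact absurd h (by norm_num)
  · rw [Pool.Agent.R428.Q0.sq7_iff h.pr h.m4]
    have := h.m7
    omega

include h in
lemma Ip.qs_eq : ((qs p : ℤ) : RR) = ((p : ℕ) : RR) := by
  unfold Pool.Agent.T2h78.TW.qs
  rw [if_pos h.m4]
  push_cast
  rfl

include h in
lemma Ip.po : PO ((p : ℕ) : RR) := by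
  have := h.iq.po
  rwa [h.qs_eq] at this

include h in
lemma Ip.te : te ((p : ℕ) : RR) = 0 := by
  have := Pool.Agent.T2h78.TW.Iq.te (q := p)
  rwa [h.qs_eq] at this

include h in
lemma Ip.cc : cc ((p : ℕ) : RR) = 1 := by
  unfold Pool.Agent.T2h16.KD.cc
  have h1 : e7 ((p : ℕ) : RR) = -1 := by
    unfold e7
    have h2 : r7 ((p : ℕ) : RR) = ((p % 7 : ℕ) : ZMod 7) := by
      rw [map_natCast, ZMod.natCast_mod]
    rw [h2]
    rcases h.m7 with h | h | h <;> rw [h]
    · have : quadraticChar (ZMod 7) ((3 : ℕ) : ZMod 7) = -1 := by decide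
      rw [this]; norm_num
    · have : quadraticChar (ZMod 7) ((5 : ℕ) : ZMod 7) = -1 := by decide
      rw [this]; norm_num
    · have : quadraticChar (ZMod 7) ((6 : ℕ) : ZMod 7) = -1 := by decide
      rw [this]; norm_num
  rw [h1, lg_neg_one]

include h in
/-- the step -/
theorem Ip.step {S : Finset RR} (hCl : Cl S) (hG : Gd S) (hS : ∀ π ∈ S, π ∣ ((p : ℕ) : RR) - 1) :
    ((p : ℕ) : RR) ∉ S ∧ Cl (insert ((p : ℕ) : RR) S) ∧ Gd (insert ((p : ℕ) : RR) S) := by
  have hpo := h.po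
  have hnot : ((p : ℕ) : RR) ∉ S := by
    intro hm
    have h1 := hS _ hm
    have h2 : ((p : ℕ) : RR) ∣ 1 := by
      have e : (1 : RR) = ((p : ℕ) : RR) - (((p : ℕ) : RR) - 1) := by ring
      rw [e]
      exact dvd_sub dvd_rfl h1
    exact hpo.pr.not_isUnit (isUnit_of_dvd_one h2)
  have h1 : ∀ π ∈ S, sl π ((p : ℕ) : RR) = 0 := by
    intro π hπ
    have hpr := (hCl.1 π hπ).pr
    have h2 : ((p : ℕ) : RR) - 1 ∈ sp π := Ideal.mem_span_singleton.2 (hS π hπ)
    have h3 : ((p : ℕ) : RR) ∉ sp π := by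
      intro h4
      have h5 : (1 : RR) ∈ sp π := by
        have e : (1 : RR) = ((p : ℕ) : RR) - (((p : ℕ) : RR) - 1) := by ring
        rw [e]
        exact sub_mem h4 h2
      exact hpr.not_isUnit (isUnit_of_dvd_one (Ideal.mem_span_singleton.1 h5))
    have h4 : Ideal.Quotient.mk (sp π) ((p : ℕ) : RR) = 1 := by
      rw [← map_one (Ideal.Quotient.mk (sp π)), Ideal.Quotient.eq]
      exact h2
    unfold sl sy
    rw [if_neg h3, if_pos (by rw [h4]; exact ⟨1, by ring⟩), lg_one]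
  have h2 : ∀ π ∈ S, sl ((p : ℕ) : RR) π = 0 := by
    intro π hπ
    have h3 := Pool.Agent.T2h16.KD.t_RCP ((p : ℕ) : RR) π hpo (hCl.1 π hπ) (fun e => hnot (e ▸ hπ))
    rw [h1 π hπ, h.te, zero_mul, add_zero] at h3
    exact h3
  refine ⟨hnot, ⟨?_, ?_⟩, ?_⟩
  · intro π hπ
    rcases Finset.mem_insert.1 hπ with rfl | hπ
    · exact hpo
    · exact hCl.1 π hπ
  · rw [Finset.sum_insert hnot, h.te, hCl.2, add_zero]
  · intro v hv
    have hv1 : Sol S v := by
      intro π hπ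
      have h3 := hv π (Finset.mem_insert_of_mem hπ)
      rw [Finset.sum_insert hnot] at h3
      have h4 : cs π ((p : ℕ) : RR) = 0 := by
        unfold Pool.Agent.T2h16.KD.cs
        rw [if_neg (fun e : π = ((p : ℕ) : RR) => hnot (e ▸ hπ))]
        exact h2 π hπ
      rw [h4, zero_mul, zero_add] at h3
      exact h3
    have hv2 := hG v hv1
    intro π hπ
    rcases Finset.mem_insert.1 hπ with rfl | hπ
    · have h3 := hv _ (Finset.mem_insert_self _ _)
      rw [Finset.sum_insert hnot, h.cc, one_mul] at h3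
      have h4 : ∑ ρ ∈ S, cs ((p : ℕ) : RR) ρ * (v ρ + v ((p : ℕ) : RR)) = 0 := by
        refine Finset.sum_eq_zero fun ρ hρ => ?_
        unfold Pool.Agent.T2h16.KD.cs
        rw [if_neg (fun e : ((p : ℕ) : RR) = ρ => hnot (e.symm ▸ hρ)), h1 ρ hρ, zero_mul]
      rw [h4, add_zero] at h3
      have h5 : cs ((p : ℕ) : RR) ((p : ℕ) : RR) = 0 := if_pos rfl
      rw [h5, zero_mul, add_zero] at h3
      exact h3
    · exact hv2 π hπ

end Pool.Agent.T2h16.BK
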