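import Pool.Agent.T2h16.BK.Er

/-!
# Project BK, task VAN8: the vanishing over `K`

After `Pool/Agent/R384/X/Main7.lean`.
-/

set_option autoImplicit false

open scoped Classical

namespace Pool.Agent.T2h16.BK

open WeierstrassCurve Pool.Agent.Y676.IS
open Pool.Agent.R384
open Pool.Agent.Y715.Red Pool.Agent.Y715.Nr Pool.Agent.W237.RK
open Pool.Agent.Y715.Gi (QB KK GK i₀_mem gk_fix)
open Pool.Agent.Y715.Df (Cmp exists_cmp)
open Pool.Agent.Y698 (RR)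
open Pool.Agent.T2h16.KD (Cl)

/-- divisibility by the square of a prime above two -/
lemma sq_dvd {w : PadicAlgCl 2} (hw : w ^ 2 = w - 2) {ϖ : OO} (hϖ : Prime ϖ)
    (h : ‖em hw ϖ‖ < 1) {z : OO} (hz : ‖em hw z‖ ≤ 1 / 4) : ϖ ^ 2 ∣ z := by
  have h2 : ‖em hw ϖ‖ = 1 / 2 := by
    rw [norm_prime hw (by norm_num) hϖ h]
    norm_num
  obtain ⟨z1, rfl⟩ := (dvd_iff hw hϖ h z).2 (lt_of_le_of_lt hz (by norm_num))
  rw [map_mul, norm_mul, h2] at hz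
  obtain ⟨z2, rfl⟩ := (dvd_iff hw hϖ h z1).2 (by linarith)
  exact ⟨z2, by ring⟩

theorem t_VAN8 : S_VAN8T := by
  intro hREL hSTR hPLC hALG hLOC i₀ hi κ κ' D r₀ I u u' S t kd k8 hCl hprod hGd hD j ϖ ϖ' hpl c hc
    hodd hstr
  obtain ⟨m, r, hm0, cd⟩ := chiD7 hi kd j
  obtain ⟨pl1, pl2⟩ := hPLC i₀ hi κ κ' D (er (1 + 4 * t)) r₀ I u u' kd k8 hD (er_one t) j ϖ ϖ' hpl
  set χ : GK i₀ →* ℤ_[2]ˣ := κ ^ j * κ' ^ (1 - j) with hχ
  set P : OO := er (1 + 4 * t) with hP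
  have hPsq : Squarefree P := cl_sqf hCl hprod
  have hPc : IsCoprime s7 P := cl_cop hCl hprod
  have hs7P : ¬ s7 ∣ P := fun h => prime_s7.not_isUnit (hPc.isUnit_of_dvd' dvd_rfl h)
  -- the sign
  obtain ⟨v, hv, hm, hαm⟩ : ∃ v : OO, (v = 1 ∨ v = -1) ∧ m = v * (s7 * P) ∧
      ((ϖ = om ∧ m = -(s7 * P)) ∨ (ϖ = 1 - om ∧ m = s7 * P)) := by
    rcases hpl with ⟨hj, h1, h2⟩ | ⟨hj, h1, h2⟩
    · have hm' : m = D := by
        rcases hm0 with ⟨-, h⟩ | ⟨h, -⟩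
        · exact h
        · exact absurd hj (Int.not_even_iff_odd.2 h)
      exact ⟨-1, Or.inr rfl, by rw [hm', hD]; ring, Or.inl ⟨h1, by rw [hm', hD]⟩⟩
    · have hm' : m = -D := by
        rcases hm0 with ⟨h, -⟩ | ⟨-, h⟩
        · exact absurd h (Int.not_even_iff_odd.2 hj)
        · exact h
      exact ⟨1, Or.inl rfl, by rw [hm', hD]; ring, Or.inr ⟨h1, by rw [hm', hD]; ring⟩⟩
  have hv' : ∀ {π : OO}, Prime π → ¬ π ∣ v := by
    intro π hπ h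
    rcases hv with h1 | h1
    · rw [h1] at h
      exact hπ.not_isUnit (isUnit_of_dvd_one h)
    · rw [h1, dvd_neg] at h
      exact hπ.not_isUnit (isUnit_of_dvd_one h)
  have hϖ : (ϖ = om ∧ ϖ' = 1 - om) ∨ (ϖ = 1 - om ∧ ϖ' = om) := by
    rcases hpl with ⟨-, h1, h2⟩ | ⟨-, h1, h2⟩
    · exact Or.inl ⟨h1, h2⟩
    · exact Or.inr ⟨h1, h2⟩
  have hϖp : Prime ϖ := by
    rcases hϖ with ⟨rfl, -⟩ | ⟨rfl, -⟩
    · exact prime_om
    · exact prime_om'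
  have hϖp' : Prime ϖ' := by
    rcases hϖ with ⟨-, rfl⟩ | ⟨-, rfl⟩
    · exact prime_om'
    · exact prime_om
  have hϖ2 : ϖ * ϖ' = 2 := by
    rcases hϖ with ⟨rfl, rfl⟩ | ⟨rfl, rfl⟩
    · exact om_mul
    · rw [mul_comm]; exact om_mul
  by_contra hn
  -- the strict place
  obtain ⟨p, hpf, ι, hι⟩ := exists_emb hi hϖp
  have hp2 : p = 2 := by
    rw [ι_em] at hι
    exact (two_of_dvd hϖp (iw hi ι) hι).2 ⟨_, hϖ2.symm⟩
  subst hp2
  have hι' : ‖em (iw hi ι) ϖ‖ < 1 := by rwa [ι_em] at hι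
  -- the relaxed place
  obtain ⟨p', hpf', ι₁, hι₁⟩ := exists_emb hi hϖp'
  have hp2' : p' = 2 := by
    rw [ι_em] at hι₁
    exact (two_of_dvd hϖp' (iw hi ι₁) hι₁).2 ⟨ϖ, by rw [mul_comm, hϖ2]⟩
  subst hp2'
  have hι₁' : ‖em (iw hi ι₁) ϖ'‖ < 1 := by rwa [ι_em] at hι₁
  -- an element that moves `√m`
  obtain ⟨σ₀, hσ₀⟩ : ∃ σ₀ : GK i₀, σ₀ r = -r := by
    obtain ⟨l, hl, ι₇, hh⟩ := exists_emb hi prime_s7
    rw [ι_em] at hh
    obtain ⟨σ, -, h⟩ := exists_ram hi cd prime_s7 (m1 := v * P) (by rw [hm]; ring) (fun h => by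
      rcases prime_s7.dvd_or_dvd h with h1 | h1
      · exact hv' prime_s7 h1
      · exact hs7P h1) hh
    exact ⟨σ, h⟩
  -- normalization
  obtain ⟨a, y, ha, hint, hmin⟩ := normalize hc (cd.big hi hσ₀) hn
  set c' : GK i₀ → ℚ_[2] := fun σ => a * c σ + (vl χ σ - 1) * y with hc'
  have hcc : Coc χ c' := hc.twist cd.cont a y
  have hodd' : ∀ (p : ℕ) [Fact p.Prime] (ι : QB →ₐ[ℚ] PadicAlgCl p), p ≠ 2 →
      CobOn χ (II ι) c' := fun p _ ι hp => (hodd p ι hp).twist a y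
  have hstr' : CobOn χ (DD ι) c' := (hstr ι hι).twist a y
  -- Kummer theory
  obtain ⟨δ, hδ, hkum⟩ := kum hi (md c') (md_cont hcc) (md_mul hcc hint)
  obtain ⟨s, hs⟩ : ∃ s : QB, s ^ 2 = em hi δ := IsAlgClosed.exists_pow_nat_eq _ (by norm_num)
  have hk : ∀ σ : GK i₀, σ s = s ↔ md c' σ = 0 := hkum s hs
  obtain ⟨ζ, hζ⟩ : ∃ ζ : QB, ζ ^ 4 = -1 := IsAlgClosed.exists_pow_nat_eq _ (by norm_num)
  obtain ⟨hst1, hst2⟩ := hSTR i₀ hi χ c' hint ι ϖ hϖp hι' hstr' (pl1 ι hι').1 (pl1 ι hι').2 δ s hδ hs hk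
  have hrel := hREL i₀ hi χ c' cd.cont hcc hint ι₁ ϖ' hϖp' hι₁' ζ hζ (pl2 ι₁ hι₁' ζ hζ).1
    (pl2 ι₁ hι₁' ζ hζ).2 δ s hδ hs hk
  have hst3 : ϖ ^ 2 ∣ δ - 1 := by
    refine sq_dvd (iw hi ι) hϖp hι' ?_
    rwa [map_sub, map_one]
  -- the prime divisors of `δ`
  have hsup : ∀ π, Prime π → π ∣ δ → π ∣ s7 ∨ π ∣ P := by
    intro π hπ hπδ
    by_cases hπ2 : π ∣ 2
    · exfalso
      rw [← hϖ2] at hπ2
      rcases hπ.dvd_or_dvd hπ2 with h | h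
      · exact hst1 (((hπ.dvd_prime_iff_associated hϖp).1 h).symm.dvd.trans hπδ)
      · exact hrel (((hπ.dvd_prime_iff_associated hϖp').1 h).symm.dvd.trans hπδ)
    · by_cases hπm : π ∣ m
      · have h1 : π ∣ s7 * P := by
          rw [hm] at hπm
          exact (hπ.dvd_or_dvd hπm).resolve_left (hv' hπ)
        exact hπ.dvd_or_dvd h1
      · exfalso
        obtain ⟨l, hl, ι₂, hh⟩ := exists_emb hi hπ
        rw [ι_em] at hh
        have hl2 : l ≠ 2 := fun h => hπ2 ((two_of_dvd hπ (iw hi ι₂) hh).1 h)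
        have h1 := unram hi cd hl2 (hodd' l ι₂ hl2) ((dvd_iff (iw hi ι₂) hπ hh m).not.1 hπm)
        refine not_dvd_of_fix (iw hi ι₂) hπ hh hδ (s := ι₂ s) ?_ ?_ hπδ
        · rw [← map_pow, hs, ι_em]
        · intro τ hin hτ
          exact fix_I (fun σ hσ => (hk σ).2 (h1 σ hσ)) τ hin hτ
  -- the prime divisors of `P`
  have hloc : ∀ π, Prime π → π ∣ P → (¬ π ∣ δ ∧ Sqm π δ) ∨
      ∃ δ1 m1, δ = π * δ1 ∧ m = π * m1 ∧ Sqm π (δ1 * m1) := by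
    intro π hπ hπP
    have hπ2 : ¬ π ∣ 2 := er_two hπ hπP
    have hπ7 : ¬ π ∣ s7 := fun h => hπ.not_isUnit (hPc.isUnit_of_dvd' h hπP)
    obtain ⟨P1, hP1⟩ := hπP
    have hπP1 : ¬ π ∣ P1 := by
      rintro ⟨P2, rfl⟩
      exact hπ.not_isUnit (hPsq π ⟨P2, by rw [hP1]; ring⟩)
    obtain ⟨l, hl, ι₂, hh⟩ := exists_emb hi hπ
    rw [ι_em] at hh
    have hl2 : l ≠ 2 := fun h => hπ2 ((two_of_dvd hπ (iw hi ι₂) hh).1 h)
    refine hLOC i₀ hi χ m r cd c' hcc hint π (v * (s7 * P1)) hπ hπ2 hπ7 (by rw [hm, hP1]; ring)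
      (fun h => ?_) l ι₂ hh (hodd' l ι₂ hl2) δ s hδ hs hk
    rcases hπ.dvd_or_dvd h with h1 | h1
    · exact hv' hπ h1
    · rcases hπ.dvd_or_dvd h1 with h2 | h2
      · exact hπ7 h2
      · exact hπP1 h2
  have hδ2 := hALG S t P m ϖ δ hCl hprod hGd hP hαm hδ hsup hst3 hloc
  rcases hδ2 with h | h
  · -- `δ = 1`
    rw [h, map_one] at hs
    obtain ⟨σ, hσ⟩ := hmin 0
    rw [mul_zero, sub_zero] at hσ
    apply hσ
    have h1 : σ s = s := by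
      rcases sq_eq_one_iff.1 hs with h2 | h2
      · rw [h2, map_one]
      · rw [h2, map_neg, map_one]
    have h5 : ‖c' σ‖ < 1 := md_zero.1 ((hk σ).1 h1)
    exact h5
  · -- `δ = m`
    rw [h] at hs
    have hsr : ∀ σ : GK i₀, σ s = s ↔ σ r = r := by
      intro σ
      have h1 : s ^ 2 = r ^ 2 := by rw [hs, cd.hr]
      rcases sq_eq_sq_iff_eq_or_eq_neg.1 h1 with h2 | h2
      · rw [h2]
      · rw [h2, map_neg, neg_inj]
    obtain ⟨σ, hσ⟩ := hmin (1 / 2)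
    apply hσ
    have h2n : ‖(2 : ℚ_[2])‖ = 1 / 2 := norm_two'
    have h3 : ‖(vl χ σ - 1) * (1 / 2)‖ = 2 * ‖vl χ σ - 1‖ := by
      rw [norm_mul, norm_div, norm_one, h2n]
      ring
    by_cases h4 : md c' σ = 0
    · have h5 : ‖c' σ‖ < 1 := md_zero.1 h4
      have h6 := (cd.iff hi σ).2 ((hsr σ).1 ((hk σ).2 h4))
      have e : c' σ - (vl χ σ - 1) * (1 / 2) = c' σ + -((vl χ σ - 1) * (1 / 2)) := by ring
      have h7 : ‖c' σ - (vl χ σ - 1) * (1 / 2)‖ < 1 := by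
        rw [e]
        refine add_lt' h5 ?_
        rw [norm_neg, h3]
        linarith
      exact h7
    · have h5 : ¬ ‖c' σ‖ < 1 := fun h => h4 (md_zero.2 h)
      have h6 := (md_eq (hint σ)).1 h5
      have h7 : σ r = -r := by
        rcases rt_or hi cd.hr σ with h7 | h7
        · exact absurd ((hk σ).1 ((hsr σ).2 h7)) h4
        · exact h7
      have h8 := cd.big hi h7
      have h9 : ¬ ‖(vl χ σ - 1) * (1 / 2)‖ < 1 := by
        rw [h3, h8]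
        norm_num
      have h10 := (md_eq (by rw [h3, h8]; norm_num)).1 h9
      have e : c' σ - (vl χ σ - 1) * (1 / 2) = (c' σ - 1) + -((vl χ σ - 1) * (1 / 2) - 1) := by ring
      rw [e]
      exact add_lt' h6 (by rwa [norm_neg])

end Pool.Agent.T2h16.BK
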