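import Pool.Agent.T2h16.KE.All
import Pool.Agent.T2h16.BK.Stm
import Pool.Agent.T2h16.BK.Er
import Pool.Agent.T2h16.BK.Twr
import Pool.Agent.T2h16.BK.M8
import Pool.Agent.T2h16.BK.KD8
import Pool.Agent.T2h16.BK.LOCQ
import Pool.Agent.T2h16.BK.MQ8
import Pool.Agent.T2h16.BK.VAN8
import Pool.Agent.T2h16.BK.H90
import Pool.Agent.T2h16.BK.CYC
import Pool.Agent.T2h16.BK.STR
import Pool.Agent.T2h16.BK.PLC
import Pool.Agent.T2h16.BK.REL
import Pool.Agent.T2h16.BK.ALG8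

/-!
# Project BK: the assembly
-/

set_option autoImplicit false

namespace Pool.Agent.T2h16.BK

/-- the assembly -/
theorem mq8 : S_MQ8 :=
  t_MQ8 (t_VAN8 (t_REL t_H90) t_STR (t_PLC t_CYC)
    (t_ALG8 Pool.Agent.T2h16.KE.t_JEX Pool.Agent.T2h16.KE.t_GCJ Pool.Agent.T2h16.KE.t_LCK) t_LOCQ)

end Pool.Agent.T2h16.BK
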