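import Pool.Agent.T2h16.BK.Er
import Pool.Agent.T2h16.KE.LCK
import Pool.Agent.T2h16.KE.Fin

/-!
# Project BK, task ALG8: the algebra

The class `δ` satisfies the local conditions `KE.PDK` over a number field `K` with a ring isomorphism
`RR ≃+* 𝓞 K`; for `ϖ = om` the conjugate set is used.
-/

set_option autoImplicit false
set_option linter.unusedSectionVars false

open scoped Classical

namespace Pool.Agent.T2h16.BK

open NumberField IsDedekindDomain WithZero
open Pool.Agent.R384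
open Pool.Agent.Y698 (RR cX cY nR aR fR cj SqE Ev Ur Sq SDD)
open Pool.Agent.T2h16.KD (Cl)

section
variable {K : Type} [Field K] [NumberField K]

/-- the isomorphism with the ring of integers -/
noncomputable def eo (j : RR ≃+* 𝓞 K) : OO ≃+* 𝓞 K := eE.symm.trans j

lemma eo_er (j : RR ≃+* 𝓞 K) (x : RR) : eo j (er x) = j x := by
  show j (eE.symm (eE x)) = j x
  rw [eE.symm_apply_apply]

/-- the generator -/
def Gen (e : OO ≃+* 𝓞 K) : Prop := ∀ v : HeightOneSpectrum (𝓞 K), ∃ π : OO, Prime π ∧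
    (∀ x : OO, v.valuation K (e x : K) < 1 ↔ π ∣ x)

lemma gen_eo (j : RR ≃+* 𝓞 K) : Gen (eo j) := by
  intro v
  obtain ⟨π, hπ, h1, -⟩ := KE.Lc.gen_v j v
  refine ⟨er π, er_prime.2 hπ, fun x => ?_⟩
  have hx : x = er (ri x) := (er_ri x).symm
  rw [hx, eo_er, er_dvd]
  exact h1 _

variable {e : OO ≃+* 𝓞 K}

/-- the local conditions -/
lemma pdk_of (hgen : Gen e) {P m ϖ δ : OO} {a D : K} (h1 : (1 : K) - a = (e ϖ : K))
    (hD : D = (e P : K)) (hm : D * (2 * a - 1) = (e m : K)) (h7 : (e s7 : K) ^ 2 = -7)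
    (hϖ2 : ϖ * (1 - ϖ) = 2) (hsq : Squarefree δ) (hmsq : Squarefree m)
    (hsup : ∀ π, Prime π → π ∣ δ → π ∣ s7 ∨ π ∣ P) (hϖ : ϖ ^ 2 ∣ δ - 1)
    (hloc : ∀ π, Prime π → π ∣ P → (¬ π ∣ δ ∧ Sqm π δ) ∨
      ∃ δ1 m1, δ = π * δ1 ∧ m = π * m1 ∧ Sqm π (δ1 * m1)) :
    KE.PDK a D (e δ : K) := by
  have hle : ∀ (v : HeightOneSpectrum (𝓞 K)) (x : OO), v.valuation K (e x : K) ≤ 1 :=
    fun v x => v.valuation_le_one (K := K) (e x)
  have hmulc : ∀ x y : OO, (e (x * y) : K) = (e x : K) * (e y : K) := by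
    intro x y
    rw [map_mul]
    rfl
  have hsubc : ∀ x y : OO, (e (x - y) : K) = (e x : K) - (e y : K) := by
    intro x y
    rw [map_sub]
    rfl
  have hne : ∀ {x : OO}, x ≠ 0 → (e x : K) ≠ 0 := by
    intro x hx h
    have h2 : e x = 0 := RingOfIntegers.ext h
    exact hx (e.injective (by rw [h2, map_zero]))
  have hone : (e 1 : K) = 1 := by rw [map_one]; rfl
  refine ⟨hne hsq.ne_zero, fun v hv7 => ?_⟩
  obtain ⟨π, hπ, hdv⟩ := hgen v
  have hval : ∀ x : OO, ¬ π ∣ x → v.valuation K (e x : K) = 1 := fun x hx =>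
    le_antisymm (hle v x) (not_lt.1 fun h => hx ((hdv x).1 h))
  have hπ7 : ¬ π ∣ s7 := by
    intro h
    have h2 := (hdv _).2 h
    have h3 : v.valuation K ((e s7 : K) ^ 2) < 1 := by
      rw [map_pow]
      exact pow_lt_one₀ zero_le h2 two_ne_zero
    rw [h7, Valuation.map_neg, hv7] at h3
    exact lt_irrefl _ h3
  refine ⟨fun hvD => ⟨?_, fun hv1 => ?_⟩, fun hvD => ?_⟩
  · -- even
    refine ⟨1, one_ne_zero, ?_⟩
    rw [map_one, one_pow]
    refine hval _ fun h => ?_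
    rcases hsup π hπ h with h2 | h2
    · exact hπ7 h2
    · have h3 := (hdv _).2 h2
      rw [← hD, hvD] at h3
      exact lt_irrefl _ h3
  · -- unramified
    rw [h1, hdv] at hv1
    refine ⟨1, one_ne_zero, ?_⟩
    have h2 : ¬ π ∣ 1 - ϖ := by
      intro h
      have h3 : π ∣ 1 := by
        have e1 : (1 : OO) = (1 - ϖ) + ϖ := by ring
        rw [e1]
        exact dvd_add h hv1
      exact hπ.not_isUnit (isUnit_of_dvd_one h3)
    have h4 : v.valuation K (4 : K) = v.valuation K (e (ϖ ^ 2) : K) := by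
      have e1 : (4 : K) = (e (ϖ ^ 2) : K) * (e ((1 - ϖ) ^ 2) : K) := by
        rw [← hmulc, ← mul_pow, hϖ2]
        have e2 : e ((2 : OO) ^ 2) = (2 : 𝓞 K) ^ 2 := by rw [map_pow, map_ofNat]
        rw [e2]
        have e3 : (((2 : 𝓞 K) ^ 2 : 𝓞 K) : K) = (2 : K) ^ 2 := rfl
        rw [e3]
        norm_num
      rw [e1, map_mul, hval ((1 - ϖ) ^ 2) (fun h => h2 (hπ.dvd_of_dvd_pow h)), mul_one]
    obtain ⟨c, hc⟩ := hϖ
    have h5 : (e δ : K) - 1 ^ 2 = (e (ϖ ^ 2) : K) * (e c : K) := by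
      rw [← hmulc, ← hc, hsubc, hone, one_pow]
    rw [h5, h4, map_mul, map_one, one_pow, mul_one]
    exact mul_le_of_le_one_right' (hle v c)
  · -- the divisors of `P`
    rw [hD, hdv] at hvD
    rcases hloc π hπ hvD with ⟨h2, y, hy⟩ | ⟨δ1, m1, hδ1, hm1, y, hy⟩
    · left
      have hy1 : ¬ π ∣ y := by
        intro h
        apply h2
        have e1 : δ = (δ - y ^ 2) + y * y := by ring
        rw [e1]
        exact dvd_add hy (Dvd.dvd.mul_right h _)
      have hyv := hval y hy1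
      refine ⟨(e y : K), hne (fun h => hy1 (h ▸ dvd_zero _)), ?_⟩
      rw [hyv, one_pow, sq, ← hmulc, ← hsubc, hdv, ← sq]
      exact hy
    · right
      have hd1 : ¬ π ∣ δ1 := by
        rintro ⟨x, rfl⟩
        exact hπ.not_isUnit (hsq π ⟨x, by rw [hδ1]; ring⟩)
      have hd2 : ¬ π ∣ m1 := by
        rintro ⟨x, rfl⟩
        exact hπ.not_isUnit (hmsq π ⟨x, by rw [hm1]; ring⟩)
      have hy1 : ¬ π ∣ y := by
        intro h
        have h3 : π ∣ δ1 * m1 := by
          have e1 : δ1 * m1 = (δ1 * m1 - y ^ 2) + y * y := by ring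
          rw [e1]
          exact dvd_add hy (Dvd.dvd.mul_right h _)
        rcases hπ.dvd_or_dvd h3 with h4 | h4
        · exact hd1 h4
        · exact hd2 h4
      have hyv := hval y hy1
      have hy0 : y ≠ 0 := fun h => hy1 (h ▸ dvd_zero _)
      refine ⟨(e (π * y) : K), hne (mul_ne_zero hπ.ne_zero hy0), ?_⟩
      have e2 : D * (2 * a - 1) * (e δ : K) - (e (π * y) : K) ^ 2 =
          (e π : K) ^ 2 * (e (δ1 * m1 - y ^ 2) : K) := by
        rw [hm, hsubc, hδ1, hm1, sq y, hmulc, hmulc, hmulc, hmulc, hmulc]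
        ring
      rw [e2, map_mul, map_pow, hmulc π y, map_mul, hyv, mul_one]
      have h0 : v.valuation K (e π : K) ≠ 0 := by
        rw [Valuation.ne_zero_iff]
        exact hne hπ.ne_zero
      have h3 : v.valuation K (e (δ1 * m1 - y ^ 2) : K) < 1 := (hdv _).2 hy
      calc v.valuation K (e π : K) ^ 2 * v.valuation K (e (δ1 * m1 - y ^ 2) : K)
          < v.valuation K (e π : K) ^ 2 * 1 :=
            mul_lt_mul_of_pos_left h3 (pow_pos (zero_lt_iff.2 h0) 2)
        _ = _ := mul_one _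

/-- a square of `K` in the ring -/
lemma int_sq (e : OO ≃+* 𝓞 K) {x : OO} {z : K} (h : (e x : K) = z ^ 2) : ∃ w : OO, (e w : K) = z := by
  have h1 : IsIntegral ℤ (z ^ 2) := by
    rw [← h]
    exact (e x).isIntegral_coe
  have h2 : IsIntegral ℤ z := IsIntegral.of_pow (n := 2) (by norm_num) h1
  obtain ⟨w, hw⟩ := e.surjective ⟨z, h2⟩
  exact ⟨w, by rw [hw]; rfl⟩

/-- the classes -/
lemma cls (e : OO ≃+* 𝓞 K) {m δ : OO} {a D : K} (hm : D * (2 * a - 1) = (e m : K))
    (hunit : ∀ u : OO, IsUnit u → u ^ 2 = 1) (hsq : Squarefree δ) (hmsq : Squarefree m)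
    (h : SDD a D (e δ : K)) : δ = 1 ∨ δ = m := by
  have hinj : ∀ x y : OO, (e x : K) = (e y : K) → x = y := fun x y h =>
    e.injective (RingOfIntegers.ext h)
  have hmulc : ∀ x y : OO, (e (x * y) : K) = (e x : K) * (e y : K) := by
    intro x y
    rw [map_mul]
    rfl
  rcases h with ⟨z, hz, h⟩ | ⟨z, hz, h⟩
  · left
    rw [one_mul] at h
    obtain ⟨w, hw⟩ := int_sq e h
    have h1 : δ = w * w := hinj _ _ (by rw [hmulc, hw, h]; ring)
    have h2 : IsUnit w := hsq w ⟨1, by rw [h1, mul_one]⟩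
    rw [h1, ← sq]
    exact hunit w h2
  · right
    rw [hm] at h
    have h3 : (e (δ * m) : K) = ((e m : K) * z) ^ 2 := by
      rw [hmulc, h]
      ring
    obtain ⟨w, hw⟩ := int_sq e h3
    have h1 : δ * m = w ^ 2 := hinj _ _ (by rw [h3, ← hw, sq w, hmulc]; ring)
    have h4 : δ ∣ w := (hsq.dvd_pow_iff_dvd two_ne_zero).1
      ⟨m, h1.symm⟩
    obtain ⟨c, rfl⟩ := h4
    have h5 : m = c * c * δ := by
      have h6 : δ * m = δ * (c * c * δ) := by rw [h1]; ring
      exact mul_left_cancel₀ hsq.ne_zero h6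
    have h7 : IsUnit c := hmsq c ⟨δ, h5⟩
    have h8 := hunit c h7
    rw [h5, ← sq, h8, one_mul]

end

/-- the field -/
instance fact7 : Fact (∀ r : ℚ, r ^ 2 ≠ (-7 : ℚ) + 0 * r) :=
  ⟨fun r h => by nlinarith [sq_nonneg r]⟩

/-- the field -/
abbrev K7 : Type := QuadraticAlgebra ℚ (-7) 0

instance : Module.Finite ℚ K7 := inferInstance

instance : CharZero K7 := charZero_of_injective_algebraMap (algebraMap ℚ K7).injective

instance : NumberField K7 where
  to_charZero := inferInstance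
  to_finiteDimensional := inferInstance

lemma exists_K7 : ∃ δ : K7, δ ^ 2 = -7 := by
  refine ⟨⟨0, 1⟩, ?_⟩
  rw [sq]
  ext
  · rw [QuadraticAlgebra.re_neg, QuadraticAlgebra.re_ofNat]
    simp
  · rw [QuadraticAlgebra.im_neg, QuadraticAlgebra.im_ofNat]
    simp

/-- the units -/
lemma unit_sq {u : OO} (hu : IsUnit u) : u ^ 2 = 1 := by
  have h1 : IsUnit (ri u) := hu.map ri
  have h2 : u = er (ri u) := (er_ri u).symm
  rcases Pool.Agent.Y698.isUnit_iff.1 h1 with h | h <;> rw [h2, h] <;> simp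

theorem t_ALG8 : S_ALG8T := by
  intro hJ hG hL S t P m ϖ δ hcl hprod hGd hP hm hsq hsup hϖ hloc
  obtain ⟨ρ, hρ⟩ := exists_K7
  obtain ⟨⟨j, hj, -⟩, -⟩ := hJ K7 ρ hρ (QuadraticAlgebra.finrank_eq_two _ _)
  have h7 : (eo j s7 : K7) ^ 2 = -7 := by
    rw [← er_fR, eo_er, hj, hρ]
  have hPsq : Squarefree P := hP ▸ cl_sqf hcl hprod
  have hPc : IsCoprime s7 P := hP ▸ cl_cop hcl hprod
  have hmsq : Squarefree m := by
    have h1 : Squarefree (s7 * P) :=
      squarefree_mul_iff.2 ⟨hPc.isRelPrime, prime_s7.squarefree, hPsq⟩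
    rcases hm with ⟨-, h⟩ | ⟨-, h⟩
    · rw [h]
      intro x hx
      exact h1 x ((dvd_neg).1 hx)
    · rw [h]
      exact h1
  have ha : (j aR : K7) ^ 2 = (j aR : K7) - 2 := KE.Lc.ha_j j
  have hfR : (eo j s7 : K7) = 2 * (j aR : K7) - 1 := by
    rw [← er_fR, eo_er]
    unfold Pool.Agent.Y698.fR
    rw [map_sub, map_mul, map_ofNat, map_one]
    push_cast
    rfl
  have hD : (1 : K7) + 4 * (j t : K7) = (eo j P : K7) := by
    rw [hP, eo_er, map_add, map_mul, map_ofNat, map_one]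
    push_cast
    rfl
  have hmulc : ∀ x y : OO, (eo j (x * y) : K7) = (eo j x : K7) * (eo j y : K7) := by
    intro x y
    rw [map_mul]
    rfl
  have hom : (eo j om : K7) = (j aR : K7) := by
    rw [← er_aR, eo_er]
  rcases hm with ⟨h1, h2⟩ | ⟨h1, h2⟩
  · -- the conjugate set
    obtain ⟨g1, -, g3, g4, -⟩ := hG S hcl
    have hpc : ∏ π ∈ KE.cjS S, π = 1 + 4 * cj t := by
      rw [g3, hprod, map_add, map_mul, map_one, map_ofNat]
    have hj1 : ∀ x : RR, (KE.cjE.trans j) x = j (cj x) := fun x => rfl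
    have c2 := hL K7 (KE.cjE.trans j) (KE.cjS S) (cj t) g1 hpc (g4.2 hGd)
    have e1 : (((KE.cjE.trans j) aR : 𝓞 K7) : K7) = 1 - (j aR : K7) := by
      rw [hj1, KE.cj_aR, map_sub, map_one]
      push_cast
      rfl
    have e2 : (KE.cjE.trans j) (cj t) = j t := by
      rw [hj1, Pool.Agent.Y698.cj_cj]
    rw [e1, e2] at c2
    have hm' : (1 + 4 * (j t : K7)) * (2 * (1 - (j aR : K7)) - 1) = (eo j m : K7) := by
      have h3 : (eo j m : K7) = -((eo j s7 : K7) * (eo j P : K7)) := by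
        rw [h2, map_neg, ← hmulc]
        rfl
      rw [h3, hfR, ← hD]
      ring
    refine cls (eo j) hm' (fun u hu => unit_sq hu) hsq hmsq (c2 _ ?_)
    refine pdk_of (gen_eo j) (ϖ := ϖ) ?_ hD hm' h7 ?_ hsq hmsq hsup hϖ hloc
    · rw [h1, hom]
      ring
    · rw [h1]
      exact om_mul
  · have c1 := hL K7 j S t hcl hprod hGd
    have hm' : (1 + 4 * (j t : K7)) * (2 * (j aR : K7) - 1) = (eo j m : K7) := by
      rw [h2, hmulc, hfR, ← hD]
      ring
    refine cls (eo j) hm' (fun u hu => unit_sq hu) hsq hmsq (c1 _ ?_)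
    refine pdk_of (gen_eo j) (ϖ := ϖ) ?_ hD hm' h7 ?_ hsq hmsq hsup hϖ hloc
    · rw [h1, map_sub, map_one, ← hom]
      push_cast
      rfl
    · rw [h1, sub_sub_cancel, mul_comm]
      exact om_mul

end Pool.Agent.T2h16.BK
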